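import Pool.Agent.H219.Dy.EulerS

/-! Truncated solutions by the energy bound only. -/

set_option maxHeartbeats 4000000

namespace Pool.Agent.H219.Dz

open Set Filter Topology Pool.Agent.H219.Dy

theorem trunc_exists2 (b : ℝ) (hb1 : 1 ≤ b) (N : ℕ) (T : ℝ) (hT : 0 < T) (S : ℝ)
    (u0 : ℕ → ℝ) (hu0 : ∀ n, 0 ≤ u0 n)
    (h0 : ∑ n ∈ Finset.range (N+1), (u0 n / b ^ n) ^ 2 ≤ S ^ 2) :
    ∃ U : ℕ → ℝ → ℝ, (∀ n, n ≤ N → U n 0 = u0 n) ∧ (∀ n, N ≤ n → U n = U N) ∧
      (∀ n, ∀ t ∈ Icc (0:ℝ) T, 0 ≤ U n t) ∧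
      ∀ n, n ≤ N → ∀ t ∈ Icc (0:ℝ) T, HasDerivWithinAt (U n)
        (b ^ (2 * n) / b * ((if n = 0 then 0 else U (n-1) t)^2 - U n t * U (n+1) t)) (Icc 0 T) t := by
  have hb : 0 < b := by linarith
  have hbn : ∀ n : ℕ, (0:ℝ) < b ^ n := fun n => by positivity
  let κ : ℕ → ℝ := fun n => b ^ (2 * n) / b
  have hκ : ∀ n, 0 < κ n := fun n => by simp only [κ]; positivity
  set Q : ℝ := S ^ 2 + 1 + T with hQd
  have hQ : 0 < Q := by positivity
  set B : ℝ := b ^ N * (1 + Q) with hBd
  have hB : 0 < B := by positivity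
  obtain ⟨U, h1, h2, h3⟩ := trunc_exists N κ (fun _ => 0) (fun n => (hκ n).le) (fun _ => le_rfl) 1
    B zero_le_one hB.le T hT.le u0
  have hpos := trunc_nonneg N κ (fun _ => 0) (fun n => (hκ n).le) 1 B zero_le_one T U
    (fun n hn => by rw [h1 n hn]; exact hu0 n) h2 h3
  -- the clamp is inactive below the energy level `Q`
  have hcl : ∀ t ∈ Icc (0:ℝ) T, ∑ n ∈ Finset.range (N+1), (U n t / b ^ n) ^ 2 ≤ Q →
      ∀ n, cl B (U n t) = U n t := by
    intro t ht hE n
    apply cl_eq (hpos n t ht)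
    have key : ∀ n, n ≤ N → U n t ≤ B := by
      intro n hn
      have h5 : (U n t / b ^ n) ^ 2 ≤ Q :=
        (Finset.single_le_sum (f := fun k => (U k t / b ^ k) ^ 2) (fun k _ => by positivity)
          (Finset.mem_range.2 (by omega))).trans hE
      have h6 : U n t / b ^ n ≤ 1 + Q := by
        have : 0 ≤ U n t / b ^ n := by have := hpos n t ht; have := hbn n; positivity
        nlinarith
      rw [div_le_iff₀ (hbn n)] at h6
      have h7 : b ^ n ≤ b ^ N := pow_le_pow_right₀ hb1 hn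
      have h8 : (1 + Q) * b ^ n ≤ (1 + Q) * b ^ N := mul_le_mul_of_nonneg_left h7 (by positivity)
      rw [hBd]
      linarith
    rcases le_total n N with h | h
    · exact key n h
    · rw [h2 n h]; exact key N le_rfl
  have hstep : ∀ t ∈ Icc (0:ℝ) T, (∀ n, cl B (U n t) = U n t) → ∀ n,
      κ n * (1 * (if n = 0 then 0 else cl B (U (n-1) t))^2 - cl B (U n t) * (cl B (U (n+1) t) + 0))
      = b ^ (2 * n) / b * ((if n = 0 then 0 else U (n-1) t)^2 - U n t * U (n+1) t) := by
    intro t ht h n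
    simp only [h, one_mul, add_zero, κ]
  have hen : ∀ t ∈ Icc (0:ℝ) T, ∀ i : Unit,
      0 < (fun (_ : Unit) (t : ℝ) => S ^ 2 + 1 + t - ∑ n ∈ Finset.range (N+1), (U n t / b ^ n) ^ 2) i t := by
    apply barrier T _ (fun (_ : Unit) t => 0 + 1 - ∑ n ∈ Finset.range (N+1), 2 * (U n t / b ^ n) *
      (κ n * (1 * (if n = 0 then 0 else cl B (U (n-1) t))^2
        - cl B (U n t) * (cl B (U (n+1) t) + 0)) / b ^ n))
    · intro i
      have : ∑ n ∈ Finset.range (N+1), (U n 0 / b ^ n) ^ 2 = ∑ n ∈ Finset.range (N+1), (u0 n / b ^ n) ^ 2 := by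
        apply Finset.sum_congr rfl
        intro n hn
        rw [h1 n (by have := Finset.mem_range.1 hn; omega)]
      rw [this]
      linarith
    · intro i t ht
      apply HasDerivWithinAt.sub
      · exact (hasDerivWithinAt_const t _ (S ^ 2 + 1)).add (hasDerivWithinAt_id t _)
      · apply HasDerivWithinAt.fun_sum
        intro n hn
        have := ((h3 n (by have := Finset.mem_range.1 hn; omega) t ht).div_const (b ^ n)).pow 2
        refine this.congr_deriv ?_
        norm_num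
    · intro t ht hall i hi
      have htI : t ∈ Icc (0:ℝ) T := ⟨ht.1.le, ht.2⟩
      have hEQ : ∑ n ∈ Finset.range (N+1), (U n t / b ^ n) ^ 2 ≤ Q := by
        rw [hQd]; have := ht.2; linarith
      have hc := hcl t htI hEQ
      have h5 : ∑ n ∈ Finset.range (N+1), 2 * (U n t / b ^ n) *
          (κ n * (1 * (if n = 0 then 0 else cl B (U (n-1) t))^2
          - cl B (U n t) * (cl B (U (n+1) t) + 0)) / b ^ n)
          = ∑ n ∈ Finset.range (N+1), 2 * (U n t / b ^ n) * FE b (fun k => U k t / b ^ k) n := by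
        apply Finset.sum_congr rfl
        intro n _
        rw [hstep t htI hc n, conv_FE b hb (fun k => U k t) n]
      rw [h5, energyE_id b (fun k => U k t / b ^ k) N]
      have q1 := hpos N t htI
      have q2 := hpos (N+1) t htI
      have q3 : 0 ≤ b ^ (3 * N) * (U N t / b ^ N) ^ 2 * (U (N+1) t / b ^ (N+1)) := by positivity
      linarith
  refine ⟨U, h1, h2, hpos, ?_⟩
  intro n hn t ht
  have h4 := hen t ht ()
  simp only at h4
  have hc := hcl t ht (by rw [hQd]; have := ht.2; linarith)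
  have h5 := h3 n hn t ht
  rw [hstep t ht hc n] at h5
  exact h5

end Pool.Agent.H219.Dz
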