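import Pool.Agent.H219.Dy.EulerV

/-! Universal decay of the energy. -/

set_option maxHeartbeats 4000000

namespace Pool.Agent.H219.Dz

open Set Filter Topology Pool.Agent.H219.Dy

/-- the time integral of `b^(3N) X_N³` is bounded, in the form of a differential inequality -/
theorem cube2 {b : ℝ} (hb : 1 ≤ b) {X : ℕ → ℝ → ℝ} (hX : IsE b X) (h0 : ∀ n, 0 ≤ X n 0)
    (S : ℝ) (hS0 : 0 ≤ S) (hS : ∀ N, EN X N 0 ≤ S ^ 2) (T : ℝ) : ∀ (K N : ℕ),
      ∃ g g' : ℝ → ℝ, (∀ t ∈ Icc (0:ℝ) T, HasDerivWithinAt g (g' t) (Icc 0 T) t) ∧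
        (∀ t ∈ Icc (0:ℝ) T, b ^ (3 * N) * X N t ^ 3 ≤ g' t + b ^ (3 * N) * S ^ 3 * (1/2) ^ K) ∧
        (∀ t ∈ Icc (0:ℝ) T, g t - g 0 ≤ (4 + 8 * b ^ 6) * S ^ 2) := by
  have hb0 : 0 < b := by linarith
  have hnn := hX.nonneg hb0.le h0
  have hE : ∀ N t, 0 ≤ t → EN X N t ≤ S ^ 2 := fun N t ht =>
    (hX.EN_anti hb0.le h0 N (Set.mem_Ici.2 le_rfl) ht ht).trans (hS N)
  have hE0 : ∀ N t, 0 ≤ EN X N t := fun N t => by unfold EN; positivity
  have hXS : ∀ n t, 0 ≤ t → X n t ≤ S := by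
    intro n t ht
    have h1 : X n t ^ 2 ≤ EN X n t :=
      Finset.single_le_sum (f := fun k => X k t ^ 2) (fun k _ => by positivity)
        (Finset.mem_range.2 (Nat.lt_succ_self n))
    exact (le_abs_self _).trans (abs_le_of_sq_le_sq (h1.trans (hE n t ht)) hS0)
  set κ : ℝ := 1 / (4 * b ^ 6) with hκd
  have hκ : 0 < κ := by positivity
  have hb3 : 1 ≤ b ^ 3 := one_le_pow₀ hb
  have hb6 : b ^ 6 = b ^ 3 * b ^ 3 := by ring
  have hκb6 : κ * b ^ 6 = 1 / 4 := by rw [hκd]; field_simp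
  have hκb : κ * b ^ 3 ≤ 1 := by
    have h1 : κ * b ^ 3 ≤ κ * b ^ 6 := by
      apply mul_le_mul_of_nonneg_left _ hκ.le
      rw [hb6]; nlinarith
    linarith
  have hκ4 : κ ≤ 1 / 4 := by
    have h1 : κ * 1 ≤ κ * b ^ 6 := by
      apply mul_le_mul_of_nonneg_left _ hκ.le
      rw [hb6]; nlinarith
    linarith
  set D0 : ℝ := 2 * S ^ 2 + 1 / κ * S ^ 2 with hD0
  have hD00 : 0 ≤ D0 := by positivity
  have hDD : (4 + 8 * b ^ 6) * S ^ 2 = 2 * D0 := by
    have e : 1 / κ = 4 * b ^ 6 := by rw [hκd]; field_simp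
    rw [hD0, e]; ring
  rw [hDD]
  intro K
  induction K with
  | zero =>
    intro N
    refine ⟨fun _ => 0, fun _ => 0, fun t _ => hasDerivWithinAt_const _ _ _, fun t ht => ?_,
      fun t _ => by simp; exact hD00⟩
    have h1 := hnn N t ht.1
    have h2 : X N t ^ 3 ≤ S ^ 3 := pow_le_pow_left₀ h1 (hXS N t ht.1) 3
    have h3 : b ^ (3 * N) * X N t ^ 3 ≤ b ^ (3 * N) * S ^ 3 := mul_le_mul_of_nonneg_left h2 (by positivity)
    simp only [pow_zero, mul_one, zero_add]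
    exact h3
  | succ K ih =>
    intro N
    obtain ⟨g1, g1', d1, i1, o1⟩ := ih (N+1)
    obtain ⟨g2, g2', d2, i2, o2⟩ := ih (N+2)
    refine ⟨fun t => 2 * (X N t * X (N+1) t) - 1 / (2 * κ) * (EN X N t + EN X (N+1) t)
        + κ * (g1 t + g2 t),
      fun t => 2 * (FE b (fun k => X k t) N * X (N+1) t + X N t * FE b (fun k => X k t) (N+1))
        - 1 / (2 * κ) * (- 2 * (b ^ (3 * N) * X N t ^ 2 * X (N+1) t)
          + - 2 * (b ^ (3 * (N+1)) * X (N+1) t ^ 2 * X (N+1+1) t))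
        + κ * (g1' t + g2' t), ?_, ?_, ?_⟩
    · intro t ht
      have hsub : Icc (0:ℝ) T ⊆ Ici 0 := fun y hy => hy.1
      have c1 := ((hX.deriv T N t ht).mul (hX.deriv T (N+1) t ht)).const_mul 2
      have c2 := (((hX.EN_deriv N t ht.1).mono hsub).add
        ((hX.EN_deriv (N+1) t ht.1).mono hsub)).const_mul (1 / (2 * κ))
      have c3 := ((d1 t ht).add (d2 t ht)).const_mul κ
      exact (c1.sub c2).add c3
    · intro t ht
      have x0 := hnn N t ht.1
      have x1 := hnn (N+1) t ht.1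
      have x2 := hnn (N+2) t ht.1
      have hsrc : 0 ≤ (if N = 0 then (0:ℝ) else b ^ (3 * (N - 1)) * X (N - 1) t ^ 2) := by
        split_ifs
        · exact le_refl _
        · positivity
      have hp := cube_point b hb κ hκ hκb N _ (X N t) (X (N+1) t) (X (N+2) t) hsrc x0 x1 x2
      have j1 := mul_le_mul_of_nonneg_left (i1 t ht) hκ.le
      have j2 := mul_le_mul_of_nonneg_left (i2 t ht) hκ.le
      have eF : FE b (fun k => X k t) N = (if N = 0 then (0:ℝ) else b ^ (3 * (N - 1)) * X (N - 1) t ^ 2)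
        - b ^ (3 * N) * X N t * X (N+1) t := by unfold FE; rfl
      have eF1 : FE b (fun k => X k t) (N+1) = b ^ (3 * N) * X N t ^ 2
        - b ^ (3 * (N+1)) * X (N+1) t * X (N+2) t := FE_succ b (fun k => X k t) N
      have ek : 1 / (2 * κ) * (- 2 * (b ^ (3 * N) * X N t ^ 2 * X (N+1) t)
          + - 2 * (b ^ (3 * (N+1)) * X (N+1) t ^ 2 * X (N+2) t))
          = - (1 / κ * (b ^ (3 * N) * X N t ^ 2 * X (N+1) t
            + b ^ (3 * (N+1)) * X (N+1) t ^ 2 * X (N+2) t)) := by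
        field_simp
        ring
      -- remainders
      have hrem : κ * (b ^ (3 * (N+1)) * S ^ 3 * (1/2) ^ K) + κ * (b ^ (3 * (N+2)) * S ^ 3 * (1/2) ^ K)
          ≤ b ^ (3 * N) * S ^ 3 * (1/2) ^ (K+1) := by
        have r1 : b ^ (3 * (N+1)) ≤ b ^ (3 * (N+2)) := pow_le_pow_right₀ hb (by omega)
        have r2 : κ * (b ^ (3 * (N+1)) * S ^ 3 * (1/2) ^ K) ≤ κ * (b ^ (3 * (N+2)) * S ^ 3 * (1/2) ^ K) := by
          gcongr
        have r3 : κ * (b ^ (3 * (N+2)) * S ^ 3 * (1/2) ^ K)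
            = (κ * b ^ 6) * (b ^ (3 * N) * S ^ 3 * (1/2) ^ K) := by
          rw [show 3 * (N+2) = 3 * N + 6 by ring, pow_add]; ring
        rw [hκb6] at r3
        have r4 : b ^ (3 * N) * S ^ 3 * (1/2) ^ (K+1) = 1 / 2 * (b ^ (3 * N) * S ^ 3 * (1/2) ^ K) := by
          rw [pow_succ]; ring
        rw [r4]
        linarith
      beta_reduce
      rw [eF, eF1, show N + 1 + 1 = N + 2 by ring, ek]
      linarith
    · intro t ht
      have q1 := o1 t ht
      have q2 := o2 t ht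
      have q3 : κ * (g1 t - g1 0 + (g2 t - g2 0)) ≤ 1 / 4 * (2 * D0 + 2 * D0) := by
        have : κ * (g1 t - g1 0 + (g2 t - g2 0)) ≤ κ * (2 * D0 + 2 * D0) :=
          mul_le_mul_of_nonneg_left (by linarith) hκ.le
        have h5 : 0 ≤ 2 * D0 + 2 * D0 := by linarith
        have := mul_le_mul_of_nonneg_right hκ4 h5
        linarith
      have q4 : X N t * X (N+1) t ≤ S ^ 2 := by
        have := mul_le_mul (hXS N t ht.1) (hXS (N+1) t ht.1) (hnn (N+1) t ht.1) hS0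
        nlinarith
      have q5 : 0 ≤ X N 0 * X (N+1) 0 := mul_nonneg (h0 N) (h0 (N+1))
      have q6 : 1 / (2 * κ) * (EN X N 0 + EN X (N+1) 0) ≤ 1 / (2 * κ) * (S ^ 2 + S ^ 2) := by
        have := hS N; have := hS (N+1)
        gcongr
      have q7 : 0 ≤ 1 / (2 * κ) * (EN X N t + EN X (N+1) t) := by
        have := hE0 N t; have := hE0 (N+1) t; positivity
      have q8 : 1 / (2 * κ) * (S ^ 2 + S ^ 2) = 1 / κ * S ^ 2 := by field_simp; ring
      have q9 : κ * (g1 t + g2 t) - κ * (g1 0 + g2 0) = κ * (g1 t - g1 0 + (g2 t - g2 0)) := by ring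
      beta_reduce
      linarith


theorem young3 (l y : ℝ) (hl : 0 ≤ l) (hy : 0 ≤ y) : 3 * l * y ^ 2 ≤ 2 * y ^ 3 + l ^ 3 := by
  have h : 0 ≤ (y - l) ^ 2 * (2 * y + l) := by positivity
  nlinarith

theorem decay_step {b : ℝ} (hb : 1 ≤ b) (hb2 : 2 ≤ b ^ 2) {X : ℕ → ℝ → ℝ} (hX : IsE b X)
    (h0 : ∀ n, 0 ≤ X n 0) (S : ℝ) (hS0 : 0 ≤ S) (hS : ∀ N, EN X N 0 ≤ S ^ 2) (T : ℝ) (hT : 0 ≤ T)
    (M : ℕ) : T * Real.sqrt (EN X M T) ^ 3 ≤ (16 + 32 * b ^ 6) * S ^ 2 := by
  have hb0 : 0 < b := by linarith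
  have hnn := hX.nonneg hb0.le h0
  set r := Real.sqrt (EN X M T) with hr
  have hr0 : 0 ≤ r := Real.sqrt_nonneg _
  have hr2 : r ^ 2 = EN X M T := Real.sq_sqrt (by unfold EN; positivity)
  set w : ℕ → ℝ := fun k => (1 / b ^ 2) ^ k with hw
  have hw0 : ∀ k, 0 ≤ w k := fun k => by simp only [hw]; positivity
  have hwb : ∀ k, w k * (b ^ k) ^ 2 = 1 := by
    intro k
    simp only [hw]
    rw [one_div, inv_pow, ← pow_mul, ← pow_mul, mul_comm 2 k]
    exact inv_mul_cancel₀ (by positivity)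
  have hW : ∑ k ∈ Finset.range (M+1), w k ≤ 2 := by
    have h1 : ∑ k ∈ Finset.range (M+1), w k ≤ ∑ k ∈ Finset.range (M+1), (1 / (2:ℝ)) ^ k := by
      apply Finset.sum_le_sum
      intro k _
      simp only [hw]
      apply pow_le_pow_left₀ (by positivity)
      exact one_div_le_one_div_of_le (by norm_num) hb2
    exact h1.trans (sum_geometric_two_le _)
  set Δ : ℝ := ∑ k ∈ Finset.range (M+1), w k * (b ^ (3 * k) * S ^ 3) with hΔ
  -- for every `K`
  have key : ∀ K : ℕ, 5 / 8 * r ^ 3 * T ≤ 2 * ((4 + 8 * b ^ 6) * S ^ 2) + Δ * (1/2) ^ K * T := by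
    intro K
    choose g g' hd hi ho using fun N => cube2 hb hX h0 S hS0 hS T K N
    have hk := le_of_deriv_le (T := T) (c := - (5 / 8 * r ^ 3) + Δ * (1/2) ^ K)
      (f := fun t => - ∑ k ∈ Finset.range (M+1), w k * g k t)
      (f' := fun t => - ∑ k ∈ Finset.range (M+1), w k * g' k t)
      (fun x hx => by
        apply HasDerivWithinAt.neg
        apply HasDerivWithinAt.fun_sum
        intro k _
        exact (hd k x hx).const_mul _)
      (fun x hx => by
        have h1 : ∑ k ∈ Finset.range (M+1), w k * (b ^ k * X k x) ^ 3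
            ≤ ∑ k ∈ Finset.range (M+1), w k * g' k x + Δ * (1/2) ^ K := by
          rw [hΔ, Finset.sum_mul, ← Finset.sum_add_distrib]
          apply Finset.sum_le_sum
          intro k _
          have h2 := mul_le_mul_of_nonneg_left (hi k x hx) (hw0 k)
          have e1 : w k * (b ^ k * X k x) ^ 3 = w k * (b ^ (3 * k) * X k x ^ 3) := by
            rw [mul_pow, ← pow_mul, mul_comm k 3]
          rw [e1]
          linarith
        have h2 : 3 * (r / 2) * EN X M x ≤ 2 * ∑ k ∈ Finset.range (M+1), w k * (b ^ k * X k x) ^ 3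
            + (r / 2) ^ 3 * ∑ k ∈ Finset.range (M+1), w k := by
          unfold EN
          rw [Finset.mul_sum, Finset.mul_sum, Finset.mul_sum, ← Finset.sum_add_distrib]
          apply Finset.sum_le_sum
          intro k _
          have h3 := young3 (r / 2) (b ^ k * X k x) (by positivity)
            (by have := hnn k x hx.1; positivity)
          have h4 := mul_le_mul_of_nonneg_left h3 (hw0 k)
          have h5 : w k * (3 * (r / 2) * (b ^ k * X k x) ^ 2) = 3 * (r / 2) * X k x ^ 2 := by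
            have := hwb k
            calc w k * (3 * (r / 2) * (b ^ k * X k x) ^ 2)
                = 3 * (r / 2) * X k x ^ 2 * (w k * (b ^ k) ^ 2) := by ring
              _ = _ := by rw [this, mul_one]
          rw [h5] at h4
          linarith
        have h3 : r ^ 2 ≤ EN X M x := by
          rw [hr2]
          exact hX.EN_anti hb0.le h0 M (Set.mem_Ici.2 hx.1) (Set.mem_Ici.2 hT) hx.2
        have h4 := mul_le_mul_of_nonneg_left h3 (by positivity : 0 ≤ 3 * (r / 2))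
        have h5 := mul_le_mul_of_nonneg_left hW (by positivity : 0 ≤ (r / 2) ^ 3)
        have h6 : 3 * (r / 2) * r ^ 2 = 3 / 2 * r ^ 3 := by ring
        have h7 : (r / 2) ^ 3 * 2 = 1 / 4 * r ^ 3 := by ring
        linarith) T ⟨hT, le_rfl⟩
    have h8 : ∑ k ∈ Finset.range (M+1), w k * g k T - ∑ k ∈ Finset.range (M+1), w k * g k 0
        ≤ 2 * ((4 + 8 * b ^ 6) * S ^ 2) := by
      rw [← Finset.sum_sub_distrib]
      have h9 : ∑ k ∈ Finset.range (M+1), (w k * g k T - w k * g k 0)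
          ≤ ∑ k ∈ Finset.range (M+1), w k * ((4 + 8 * b ^ 6) * S ^ 2) := by
        apply Finset.sum_le_sum
        intro k _
        have := mul_le_mul_of_nonneg_left (ho k T ⟨hT, le_rfl⟩) (hw0 k)
        linarith
      rw [← Finset.sum_mul] at h9
      exact h9.trans (mul_le_mul_of_nonneg_right hW (by positivity))
    linarith
  have hlim : Tendsto (fun K : ℕ => 2 * ((4 + 8 * b ^ 6) * S ^ 2) + Δ * (1/2) ^ K * T) atTop
      (𝓝 (2 * ((4 + 8 * b ^ 6) * S ^ 2) + Δ * 0 * T)) :=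
    (((tendsto_pow_atTop_nhds_zero_of_lt_one (by norm_num) (by norm_num)).const_mul _).mul_const
      _).const_add _
  have hfin := ge_of_tendsto' hlim key
  have h10 : 0 ≤ (4 + 8 * b ^ 6) * S ^ 2 := by positivity
  have h11 : (16 + 32 * b ^ 6) * S ^ 2 = 4 * ((4 + 8 * b ^ 6) * S ^ 2) := by ring
  rw [h11]
  linarith

/-- the same for the full energy, between two times -/
theorem decay_full {b : ℝ} (hb : 1 ≤ b) (hb2 : 2 ≤ b ^ 2) {X : ℕ → ℝ → ℝ} (hX : IsE b X)
    (h0 : ∀ n, 0 ≤ X n 0) (hs : ∀ t, 0 ≤ t → Summable (fun n => X n t ^ 2)) (s t : ℝ) (hs0 : 0 ≤ s)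
    (hst : s ≤ t) : (t - s) * Real.sqrt (∑' n, X n t ^ 2) ^ 3
      ≤ (16 + 32 * b ^ 6) * ∑' n, X n s ^ 2 := by
  have hb0 : 0 < b := by linarith
  have hnn := hX.nonneg hb0.le h0
  have ht0 : 0 ≤ t := by linarith
  have hE0 : 0 ≤ ∑' n, X n s ^ 2 := tsum_nonneg (fun n => by positivity)
  have h1 : ∀ M : ℕ, (t - s) * Real.sqrt (EN X M t) ^ 3 ≤ (16 + 32 * b ^ 6) * ∑' n, X n s ^ 2 := by
    intro M
    have h2 := decay_step hb hb2 (hX.shift s hs0) (fun n => by simp only [add_zero]; exact hnn n s hs0)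
      (Real.sqrt (∑' n, X n s ^ 2)) (Real.sqrt_nonneg _) (fun N => by
        rw [Real.sq_sqrt hE0]
        unfold EN
        simp only [add_zero]
        exact (hs s hs0).sum_le_tsum _ (fun n _ => by positivity)) (t - s) (by linarith) M
    rw [Real.sq_sqrt hE0] at h2
    have e : EN (fun n t => X n (s + t)) M (t - s) = EN X M t := by
      unfold EN
      simp only [add_sub_cancel]
    rw [e] at h2
    exact h2
  have h3 : Tendsto (fun M : ℕ => (t - s) * Real.sqrt (EN X M t) ^ 3) atTop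
      (𝓝 ((t - s) * Real.sqrt (∑' n, X n t ^ 2) ^ 3)) :=
    ((((Real.continuous_sqrt.tendsto _).comp (tendsto_EN (hs t ht0))).pow 3).const_mul _)
  exact le_of_tendsto' h3 h1

/-- universal decay of the energy -/
theorem decay_univ {b : ℝ} (hb : 1 ≤ b) (hb2 : 2 ≤ b ^ 2) {X : ℕ → ℝ → ℝ} (hX : IsE b X)
    (h0 : ∀ n, 0 ≤ X n 0) (hs : ∀ t, 0 ≤ t → Summable (fun n => X n t ^ 2)) (T : ℝ) (hT : 0 < T) :
    T ^ 2 * ∑' n, X n T ^ 2 ≤ (8 * (16 + 32 * b ^ 6)) ^ 2 := by
  have hb0 : 0 < b := by linarith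
  set C : ℝ := 16 + 32 * b ^ 6 with hC
  have hC0 : 0 < C := by positivity
  set E : ℝ → ℝ := fun t => ∑' n, X n t ^ 2 with hE
  have hE0 : ∀ t, 0 ≤ E t := fun t => tsum_nonneg (fun n => by positivity)
  have hanti : AntitoneOn E (Ici 0) := hX.energy_anti2 hb0.le h0 hs
  set A : ℝ := sSup ((fun t => t ^ 2 * E t) '' Ioc 0 T) with hA
  have hbdd : BddAbove ((fun t => t ^ 2 * E t) '' Ioc 0 T) := by
    refine ⟨T ^ 2 * E 0, ?_⟩
    rintro _ ⟨t, ht, rfl⟩
    have h1 : E t ≤ E 0 := hanti (Set.mem_Ici.2 le_rfl) (Set.mem_Ici.2 ht.1.le) ht.1.le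
    have h2 : t ^ 2 ≤ T ^ 2 := pow_le_pow_left₀ ht.1.le ht.2 2
    exact mul_le_mul h2 h1 (hE0 t) (by positivity)
  have hle : ∀ t ∈ Ioc (0:ℝ) T, t ^ 2 * E t ≤ A := fun t ht => le_csSup hbdd ⟨t, ht, rfl⟩
  have hA0 : 0 ≤ A := le_trans (by have := hE0 T; positivity) (hle T ⟨hT, le_rfl⟩)
  have hcube : ∀ t ∈ Ioc (0:ℝ) T, (t * Real.sqrt (E t)) ^ 3 ≤ 8 * C * A := by
    intro t ht
    have h1 := decay_full hb hb2 hX h0 hs (t / 2) t (by linarith [ht.1]) (by linarith [ht.1])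
    have h2 := hle (t / 2) ⟨by linarith [ht.1], by linarith [ht.1, ht.2]⟩
    have h3 : t ^ 2 * E (t / 2) ≤ 4 * A := by
      have e : (t / 2) ^ 2 * E (t / 2) = 1 / 4 * (t ^ 2 * E (t / 2)) := by ring
      rw [e] at h2
      linarith
    have h4 : (t - t / 2) * Real.sqrt (E t) ^ 3 ≤ C * E (t / 2) := h1
    have h5 : t ^ 2 * ((t - t / 2) * Real.sqrt (E t) ^ 3) ≤ t ^ 2 * (C * E (t / 2)) :=
      mul_le_mul_of_nonneg_left h4 (by positivity)
    have h6 : C * (t ^ 2 * E (t / 2)) ≤ C * (4 * A) := mul_le_mul_of_nonneg_left h3 hC0.le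
    have e5 : t ^ 2 * ((t - t / 2) * Real.sqrt (E t) ^ 3) = 1 / 2 * (t * Real.sqrt (E t)) ^ 3 := by ring
    rw [e5] at h5
    linarith
  have hAC : A ≤ (8 * C) ^ 2 := by
    by_contra hcon
    push Not at hcon
    set q := Real.sqrt A with hq
    have hq2 : q ^ 2 = A := Real.sq_sqrt hA0
    have hq0 : 0 ≤ q := Real.sqrt_nonneg _
    have hqC : 8 * C < q := by
      by_contra h
      push Not at h
      have := pow_le_pow_left₀ hq0 h 2
      rw [hq2] at this
      linarith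
    have hqp : 0 < q := by linarith
    set θ := 8 * C / q with hθ
    have hθ0 : 0 < θ := by positivity
    have hθ1 : θ < 1 := by rw [hθ, div_lt_one hqp]; exact hqC
    set η := (2 + θ) / 3 with hη
    have hη0 : 0 < η := by positivity
    have hη1 : η < 1 := by rw [hη]; linarith
    have hηθ : θ ≤ η ^ 3 := by
      have e : η ^ 3 - θ = (1 - θ) ^ 2 * (8 + θ) / 27 := by rw [hη]; ring
      have : 0 ≤ (1 - θ) ^ 2 * (8 + θ) / 27 := by positivity
      linarith
    have hsmall : ∀ t ∈ Ioc (0:ℝ) T, t ^ 2 * E t ≤ η ^ 2 * A := by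
      intro t ht
      have h1 := hcube t ht
      have h2 : 8 * C * A = θ * q ^ 3 := by
        rw [hθ, ← hq2]; field_simp
      have h3 : θ * q ^ 3 ≤ (η * q) ^ 3 := by
        rw [mul_pow]
        exact mul_le_mul_of_nonneg_right hηθ (by positivity)
      have h4 : (t * Real.sqrt (E t)) ^ 3 ≤ (η * q) ^ 3 := by linarith
      have h5 : t * Real.sqrt (E t) ≤ η * q := le_of_pow_le_pow_left₀ (by norm_num) (by positivity) h4
      have h6 : (t * Real.sqrt (E t)) ^ 2 ≤ (η * q) ^ 2 :=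
        pow_le_pow_left₀ (by have := Real.sqrt_nonneg (E t); have := ht.1.le; positivity) h5 2
      rw [mul_pow, mul_pow, Real.sq_sqrt (hE0 t), hq2] at h6
      exact h6
    have h7 : A ≤ η ^ 2 * A := by
      apply csSup_le ((nonempty_Ioc.2 hT).image _)
      rintro _ ⟨t, ht, rfl⟩
      exact hsmall t ht
    have h8 : 0 < A := by rw [← hq2]; positivity
    have h9 : η ^ 2 < 1 := by nlinarith
    nlinarith
  exact (hle T ⟨hT, le_rfl⟩).trans hAC

end Pool.Agent.H219.Dz
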