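import Pool.Agent.H219.Dz.Faces

/-! The face condition for the three-variable region. -/

set_option maxHeartbeats 4000000

namespace Pool.Agent.H219.Dz

noncomputable def al : Fin 7 → ℝ := ![1, 1, 1, 1, 1, -1, -1]
noncomputable def be : Fin 7 → ℝ :=
  ![-(4513/10000), -(8651/10000), -(12324/10000), -(16102/10000), -(28811/10000), 7612/10000, 8968/10000]
noncomputable def ga : Fin 7 → ℝ := ![0, 0, 0, 0, 12991/10000, 0, -(1686/10000)]
noncomputable def de : Fin 7 → ℝ :=
  ![1016/10000, 2464/10000, 4163/10000, 6412/10000, 5820/10000, 2388/10000, 2718/10000]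

/-- the seven linear constraints on three consecutive modes `p, x, y` -/
noncomputable def Ph (k : Fin 7) (M p x y : ℝ) : ℝ := al k * y + be k * x + ga k * p + de k * M

theorem Ph0 (M p x y : ℝ) : Ph 0 M p x y = 1 * y + -(4513/10000) * x + 0 * p + 1016/10000 * M := rfl
theorem Ph1 (M p x y : ℝ) : Ph 1 M p x y = 1 * y + -(8651/10000) * x + 0 * p + 2464/10000 * M := rfl
theorem Ph2 (M p x y : ℝ) : Ph 2 M p x y = 1 * y + -(12324/10000) * x + 0 * p + 4163/10000 * M := rfl
theorem Ph3 (M p x y : ℝ) : Ph 3 M p x y = 1 * y + -(16102/10000) * x + 0 * p + 6412/10000 * M := rfl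
theorem Ph4 (M p x y : ℝ) : Ph 4 M p x y = 1 * y + -(28811/10000) * x + 12991/10000 * p + 5820/10000 * M := rfl
theorem Ph5 (M p x y : ℝ) : Ph 5 M p x y = -1 * y + 7612/10000 * x + 0 * p + 2388/10000 * M := rfl
theorem Ph6 (M p x y : ℝ) : Ph 6 M p x y = -1 * y + 8968/10000 * x + -(1686/10000) * p + 2718/10000 * M := rfl

theorem de_pos (k : Fin 7) : 0 < de k := by
  fin_cases k
  · show (0:ℝ) < 1016/10000; norm_num
  · show (0:ℝ) < 2464/10000; norm_num
  · show (0:ℝ) < 4163/10000; norm_num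
  · show (0:ℝ) < 6412/10000; norm_num
  · show (0:ℝ) < 5820/10000; norm_num
  · show (0:ℝ) < 2388/10000; norm_num
  · show (0:ℝ) < 2718/10000; norm_num

theorem de_le (k : Fin 7) : de k ≤ 1 := by
  fin_cases k
  · show (1016/10000 : ℝ) ≤ 1; norm_num
  · show (2464/10000 : ℝ) ≤ 1; norm_num
  · show (4163/10000 : ℝ) ≤ 1; norm_num
  · show (6412/10000 : ℝ) ≤ 1; norm_num
  · show (5820/10000 : ℝ) ≤ 1; norm_num
  · show (2388/10000 : ℝ) ≤ 1; norm_num
  · show (2718/10000 : ℝ) ≤ 1; norm_num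

/-- all constraints hold for small values -/
theorem Ph_small (k : Fin 7) (M p x y : ℝ) (hM : 0 < M) (hp : 0 ≤ p) (hx : 0 ≤ x) (hy : 0 ≤ y)
    (hp1 : p ≤ M / 5) (hx1 : x ≤ M / 5) (hy1 : y ≤ M / 5) : 0 < Ph k M p x y := by
  fin_cases k
  · show 0 < Ph 0 M p x y; rw [Ph0]; linarith
  · show 0 < Ph 1 M p x y; rw [Ph1]; linarith
  · show 0 < Ph 2 M p x y; rw [Ph2]; linarith
  · show 0 < Ph 3 M p x y; rw [Ph3]; linarith
  · show 0 < Ph 4 M p x y; rw [Ph4]; linarith
  · show 0 < Ph 5 M p x y; rw [Ph5]; linarith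
  · show 0 < Ph 6 M p x y; rw [Ph6]; linarith

/-- closure of the truncated system -/
theorem Ph_close (k : Fin 7) (M p x : ℝ) (hp : 0 ≤ p) (hp1 : p ≤ M) (hx : 0 ≤ x)
    (hx1 : x ≤ M) (h : 0 ≤ 7612/10000 * p + 2388/10000 * M - x) : 0 ≤ Ph k M p x x := by
  fin_cases k
  · show 0 ≤ Ph 0 M p x x; rw [Ph0]; linarith
  · show 0 ≤ Ph 1 M p x x; rw [Ph1]; linarith
  · show 0 ≤ Ph 2 M p x x; rw [Ph2]; linarith
  · show 0 ≤ Ph 3 M p x x; rw [Ph3]; linarith
  · show 0 ≤ Ph 4 M p x x; rw [Ph4]; linarith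
  · show 0 ≤ Ph 5 M p x x; rw [Ph5]; linarith
  · show 0 ≤ Ph 6 M p x x; rw [Ph6]; linarith

theorem face (R : ℝ) (hR : 317/100 ≤ R) (hR1 : R ≤ 366/100) (k : Fin 7) (M o p x y w : ℝ)
    (hM : 0 ≤ M) (ho : 0 ≤ o) (ho1 : o ≤ M) (hp : 0 ≤ p) (hp1 : p ≤ M) (hx : 0 ≤ x) (hx1 : x ≤ M)
    (hy : 0 ≤ y) (hy1 : y ≤ M) (h0 : 0 ≤ 7612/10000 * o + 2388/10000 * M - p)
    (h1 : ∀ k, 0 ≤ Ph k M o p x) (h2 : ∀ k, 0 ≤ Ph k M p x y) (h3 : ∀ k, 0 ≤ Ph k M x y w)
    (h : Ph k M p x y = 0) :
    1/200 * (M * (2 * M - p - x)) ≤ al k * (R * (x^2 - y * w)) + be k * (p^2 - x * y)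
      + ga k * (1 / R * (o^2 - p * x)) := by
  have a0 := h1 0; have a1 := h1 1; have a2 := h1 2; have a3 := h1 3; have a4 := h1 4
  have a5 := h1 5; have a6 := h1 6
  have b0 := h2 0; have b1 := h2 1; have b2 := h2 2; have b3 := h2 3; have b4 := h2 4
  have b5 := h2 5; have b6 := h2 6
  have c4 := h3 4; have c5 := h3 5; have c6 := h3 6
  rw [Ph0] at a0 b0; rw [Ph1] at a1 b1; rw [Ph2] at a2 b2; rw [Ph3] at a3 b3
  rw [Ph4] at a4 b4 c4; rw [Ph5] at a5 b5 c5; rw [Ph6] at a6 b6 c6
  have kho1 : 0 ≤ M - o := by linarith only [ho1]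
  have khp1 : 0 ≤ M - p := by linarith only [hp1]
  have khx1 : 0 ≤ M - x := by linarith only [hx1]
  have khy1 : 0 ≤ M - y := by linarith only [hy1]
  have khU0o : 0 ≤ (1903/2500) * o + (597/2500) * M - p := by linarith only [h0]
  have khLAp : 0 ≤ x - ((4513/10000) * p - (127/1250) * M) := by linarith only [a0]
  have khLBp : 0 ≤ x - ((8651/10000) * p - (154/625) * M) := by linarith only [a1]
  have khLCp : 0 ≤ x - ((3081/2500) * p - (4163/10000) * M) := by linarith only [a2]
  have khLDp : 0 ≤ x - ((8051/5000) * p - (1603/2500) * M) := by linarith only [a3]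
  have khEp : 0 ≤ x - ((28811/10000) * p - (12991/10000) * o - (291/500) * M) := by linarith only [a4]
  have khU0p : 0 ≤ (1903/2500) * p + (597/2500) * M - x := by linarith only [a5]
  have khU1p : 0 ≤ (1121/1250) * p - (843/5000) * o + (1359/5000) * M - x := by linarith only [a6]
  have khLAx : 0 ≤ y - ((4513/10000) * x - (127/1250) * M) := by linarith only [b0]
  have khLBx : 0 ≤ y - ((8651/10000) * x - (154/625) * M) := by linarith only [b1]
  have khLCx : 0 ≤ y - ((3081/2500) * x - (4163/10000) * M) := by linarith only [b2]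
  have khLDx : 0 ≤ y - ((8051/5000) * x - (1603/2500) * M) := by linarith only [b3]
  have khEx : 0 ≤ y - ((28811/10000) * x - (12991/10000) * p - (291/500) * M) := by linarith only [b4]
  have khU0x : 0 ≤ (1903/2500) * x + (597/2500) * M - y := by linarith only [b5]
  have khU1x : 0 ≤ (1121/1250) * x - (843/5000) * p + (1359/5000) * M - y := by linarith only [b6]
  have kwU : 0 ≤ (1121/1250) * y - (843/5000) * x + (1359/5000) * M - w := by linarith only [c6]
  have kwU0 : 0 ≤ (1903/2500) * y + (597/2500) * M - w := by linarith only [c5]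
  have kwE : 0 ≤ w - ((28811/10000) * y - (12991/10000) * x - (291/500) * M) := by linarith only [c4]
  have hR0 : 0 < R := by linarith only [hR]
  have s1 : 1 / R ≤ 100/317 := by rw [div_le_div_iff₀ hR0 (by norm_num)]; linarith only [hR]
  have s2 : 100/366 ≤ 1 / R := by rw [div_le_div_iff₀ (by norm_num) hR0]; linarith only [hR1]
  have low : ∀ B : ℝ, 0 ≤ x^2 - y * w → 1/200 * (M * (2 * M - p - x)) ≤ 317/100 * (x^2 - y*w) - B →
      1/200 * (M * (2 * M - p - x)) ≤ R * (x^2 - y*w) - B := by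
    intro B g f
    have := mul_nonneg (sub_nonneg.2 hR) g
    linarith only [this, f]
  have up : ∀ B : ℝ, 0 ≤ y * w - x^2 → 1/200 * (M * (2 * M - p - x)) ≤ B - 317/100 * (x^2 - y*w) →
      1/200 * (M * (2 * M - p - x)) ≤ B - R * (x^2 - y*w) := by
    intro B g f
    have := mul_nonneg (sub_nonneg.2 hR) g
    linarith only [this, f]
  clear a0 a1 a2 a3 a4 a5 a6 b0 b1 b2 b3 b4 b5 b6 c4 c5 c6 h1 h2 h3
  fin_cases k
  · change Ph 0 M p x y = 0 at h
    rw [Ph0] at h
    show _ ≤ 1 * (R * (x^2 - y * w)) + -(4513/10000) * (p^2 - x * y) + 0 * (1 / R * (o^2 - p * x))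
    have f := fA M o p x y w hM ho kho1 hp khp1 hx khx1 hy khy1 khU0o khLAp khLBp khLCp khLDp khEp khU0p khU1p khLAx khLBx khLCx khLDx khEx khU0x khU1x kwU (by linarith only [h])
    have g := gA M o p x y w hM ho kho1 hp khp1 hx khx1 hy khy1 khU0o khLAp khLBp khLCp khLDp khEp khU0p khU1p khLAx khLBx khLCx khLDx khEx khU0x khU1x kwU (by linarith only [h])
    have := low _ g f
    linarith only [this]
  · change Ph 1 M p x y = 0 at h
    rw [Ph1] at h
    show _ ≤ 1 * (R * (x^2 - y * w)) + -(8651/10000) * (p^2 - x * y) + 0 * (1 / R * (o^2 - p * x))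
    have f := fB M o p x y w hM ho kho1 hp khp1 hx khx1 hy khy1 khU0o khLAp khLBp khLCp khLDp khEp khU0p khU1p khLAx khLBx khLCx khLDx khEx khU0x khU1x kwU (by linarith only [h])
    have g := gB M o p x y w hM ho kho1 hp khp1 hx khx1 hy khy1 khU0o khLAp khLBp khLCp khLDp khEp khU0p khU1p khLAx khLBx khLCx khLDx khEx khU0x khU1x kwU (by linarith only [h])
    have := low _ g f
    linarith only [this]
  · change Ph 2 M p x y = 0 at h
    rw [Ph2] at h
    show _ ≤ 1 * (R * (x^2 - y * w)) + -(12324/10000) * (p^2 - x * y) + 0 * (1 / R * (o^2 - p * x))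
    have f := fC M o p x y w hM ho kho1 hp khp1 hx khx1 hy khy1 khU0o khLAp khLBp khLCp khLDp khEp khU0p khU1p khLAx khLBx khLCx khLDx khEx khU0x khU1x kwU (by linarith only [h])
    have g := gC M o p x y w hM ho kho1 hp khp1 hx khx1 hy khy1 khU0o khLAp khLBp khLCp khLDp khEp khU0p khU1p khLAx khLBx khLCx khLDx khEx khU0x khU1x kwU (by linarith only [h])
    have := low _ g f
    linarith only [this]
  · change Ph 3 M p x y = 0 at h
    rw [Ph3] at h
    show _ ≤ 1 * (R * (x^2 - y * w)) + -(16102/10000) * (p^2 - x * y) + 0 * (1 / R * (o^2 - p * x))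
    have f := fD M o p x y w hM ho kho1 hp khp1 hx khx1 hy khy1 khU0o khLAp khLBp khLCp khLDp khEp khU0p khU1p khLAx khLBx khLCx khLDx khEx khU0x khU1x kwU (by linarith only [h])
    have g := gD M o p x y w hM ho kho1 hp khp1 hx khx1 hy khy1 khU0o khLAp khLBp khLCp khLDp khEp khU0p khU1p khLAx khLBx khLCx khLDx khEx khU0x khU1x kwU (by linarith only [h])
    have := low _ g f
    linarith only [this]
  · change Ph 4 M p x y = 0 at h
    rw [Ph4] at h
    show _ ≤ 1 * (R * (x^2 - y * w)) + -(28811/10000) * (p^2 - x * y)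
      + 12991/10000 * (1 / R * (o^2 - p * x))
    have hL : y = 28811/10000 * x - 12991/10000 * p - 291/500 * M := by linarith only [h]
    have g := gE M o p x y w hM ho kho1 hp khp1 hx khx1 hy khy1 khU0o khLAp khLBp khLCp khLDp khEp khU0p khU1p khLAx khLBx khLCx khLDx khEx khU0x khU1x kwU hL
    have both : 1/200 * (M * (2 * M - p - x)) ≤ 317/100 * (x^2 - y * w) - 28811/10000 * (p^2 - x * y)
          + 12991/10000 * (100/317 * (o^2 - p * x)) ∧
        1/200 * (M * (2 * M - p - x)) ≤ 317/100 * (x^2 - y * w) - 28811/10000 * (p^2 - x * y)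
          + 12991/10000 * (100/366 * (o^2 - p * x)) := by
      rcases le_total 0 (28811/10000 * p - 5820/10000 * M - x) with hc | hc
      · have hc' : 0 ≤ (28811/10000) * p - (291/500) * M - x := by linarith only [hc]
        rcases le_total 0 (7612/10000 * y + 2388/10000 * M
            - (8968/10000 * y - 1686/10000 * x + 2718/10000 * M)) with hd | hd
        · have hd' : 0 ≤ (1903/2500) * y + (597/2500) * M
            - ((1121/1250) * y - (843/5000) * x + (1359/5000) * M) := by linarith only [hd]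
          constructor
          · exact fE0p1 M o p x y w hM ho kho1 hp khp1 hx khx1 hy khy1 khU0o khLAp khLBp khLCp khLDp khEp khU0p khU1p khLAx khLBx khLCx khLDx khEx khU0x khU1x hc' hd' kwU hL
          · exact fE1p1 M o p x y w hM ho kho1 hp khp1 hx khx1 hy khy1 khU0o khLAp khLBp khLCp khLDp khEp khU0p khU1p khLAx khLBx khLCx khLDx khEx khU0x khU1x hc' hd' kwU hL
        · have hd' : 0 ≤ (1121/1250) * y - (843/5000) * x + (1359/5000) * M
            - ((1903/2500) * y + (597/2500) * M) := by linarith only [hd]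
          constructor
          · exact fE0p0 M o p x y w hM ho kho1 hp khp1 hx khx1 hy khy1 khU0o khLAp khLBp khLCp khLDp khEp khU0p khU1p khLAx khLBx khLCx khLDx khEx khU0x khU1x hc' hd' kwU0 hL
          · exact fE1p0 M o p x y w hM ho kho1 hp khp1 hx khx1 hy khy1 khU0o khLAp khLBp khLCp khLDp khEp khU0p khU1p khLAx khLBx khLCx khLDx khEx khU0x khU1x hc' hd' kwU0 hL
      · have hc' : 0 ≤ x - ((28811/10000) * p - (291/500) * M) := by linarith only [hc]
        constructor
        · exact fE0n M o p x y w hM ho kho1 hp khp1 hx khx1 hy khy1 khU0o khLAp khLBp khLCp khLDp khEp khU0p khU1p khLAx khLBx khLCx khLDx khEx khU0x khU1x hc' kwU hL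
        · exact fE1n M o p x y w hM ho kho1 hp khp1 hx khx1 hy khy1 khU0o khLAp khLBp khLCp khLDp khEp khU0p khU1p khLAx khLBx khLCx khLDx khEx khU0x khU1x hc' kwU hL
    have hA := mul_nonneg (sub_nonneg.2 hR) g
    obtain ⟨bo1, bo2⟩ := both
    rcases le_total 0 (o^2 - p * x) with hC | hC
    · have := mul_le_mul_of_nonneg_right s2 hC
      linarith only [bo2, hA, this]
    · have := mul_le_mul_of_nonpos_right s1 hC
      linarith only [bo1, hA, this]
  · change Ph 5 M p x y = 0 at h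
    rw [Ph5] at h
    show _ ≤ -1 * (R * (x^2 - y * w)) + 7612/10000 * (p^2 - x * y) + 0 * (1 / R * (o^2 - p * x))
    have f := fU0 M o p x y w hM ho kho1 hp khp1 hx khx1 hy khy1 khU0o khLAp khLBp khLCp khLDp khEp khU0p khU1p khLAx khLBx khLCx khLDx khEx khU0x khU1x kwE (by linarith only [h])
    have g := gU0 M o p x y w hM ho kho1 hp khp1 hx khx1 hy khy1 khU0o khLAp khLBp khLCp khLDp khEp khU0p khU1p khLAx khLBx khLCx khLDx khEx khU0x khU1x kwE (by linarith only [h])
    have := up _ g f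
    linarith only [this]
  · change Ph 6 M p x y = 0 at h
    rw [Ph6] at h
    show _ ≤ -1 * (R * (x^2 - y * w)) + 8968/10000 * (p^2 - x * y)
      + -(1686/10000) * (1 / R * (o^2 - p * x))
    have f0 := fU10 M o p x y w hM ho kho1 hp khp1 hx khx1 hy khy1 khU0o khLAp khLBp khLCp khLDp khEp khU0p khU1p khLAx khLBx khLCx khLDx khEx khU0x khU1x kwE (by linarith only [h])
    have g := gU1 M o p x y w hM ho kho1 hp khp1 hx khx1 hy khy1 khU0o khLAp khLBp khLCp khLDp khEp khU0p khU1p khLAx khLBx khLCx khLDx khEx khU0x khU1x kwE (by linarith only [h])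
    have hA := mul_nonneg (sub_nonneg.2 hR) g
    have hpx : p * x ≤ M * M := mul_le_mul hp1 hx1 hx hM
    have ho2 : o ^ 2 ≤ M ^ 2 := pow_le_pow_left₀ ho ho1 2
    have hC : 1 / R * (o^2 - p * x) ≤ 100/317 * (M^2 - p * x) := by
      have e1 : 1 / R * (o^2 - p * x) ≤ 1 / R * (M^2 - p * x) :=
        mul_le_mul_of_nonneg_left (by linarith only [ho2]) (by positivity)
      have e2 := mul_le_mul_of_nonneg_right s1 (by linarith only [hpx] : 0 ≤ M^2 - p * x)
      linarith only [e1, e2]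
    linarith only [f0, hA, hC]

end Pool.Agent.H219.Dz
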