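import Mathlib

/-! Inequalities on the faces of the three-variable region, `ρ = 317/100` (degree two certificates). -/

set_option maxHeartbeats 1000000
set_option linter.unusedVariables false

namespace Pool.Agent.H219.Dz

theorem fA (M o p x y w : ℝ) (hM : 0 ≤ M) (ho : 0 ≤ o) (ho1 : 0 ≤ M - o)
    (hp : 0 ≤ p) (hp1 : 0 ≤ M - p) (hx : 0 ≤ x)
    (hx1 : 0 ≤ M - x) (hy : 0 ≤ y) (hy1 : 0 ≤ M - y)
    (hU0o : 0 ≤ (1903/2500) * o + (597/2500) * M - p) (hLAp : 0 ≤ x - ((4513/10000) * p - (127/1250) * M)) (hLBp : 0 ≤ x - ((8651/10000) * p - (154/625) * M))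
    (hLCp : 0 ≤ x - ((3081/2500) * p - (4163/10000) * M)) (hLDp : 0 ≤ x - ((8051/5000) * p - (1603/2500) * M)) (hEp : 0 ≤ x - ((28811/10000) * p - (12991/10000) * o - (291/500) * M))
    (hU0p : 0 ≤ (1903/2500) * p + (597/2500) * M - x) (hU1p : 0 ≤ (1121/1250) * p - (843/5000) * o + (1359/5000) * M - x) (hLAx : 0 ≤ y - ((4513/10000) * x - (127/1250) * M))
    (hLBx : 0 ≤ y - ((8651/10000) * x - (154/625) * M)) (hLCx : 0 ≤ y - ((3081/2500) * x - (4163/10000) * M)) (hLDx : 0 ≤ y - ((8051/5000) * x - (1603/2500) * M))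
    (hEx : 0 ≤ y - ((28811/10000) * x - (12991/10000) * p - (291/500) * M)) (hU0x : 0 ≤ (1903/2500) * x + (597/2500) * M - y) (hU1x : 0 ≤ (1121/1250) * x - (843/5000) * p + (1359/5000) * M - y)
    (hw : 0 ≤ (1121/1250) * y - (843/5000) * x + (1359/5000) * M - w)
    (hL : y = (4513/10000) * x - (127/1250) * M) :
    (1/200) * (M * (2 * M - p - x)) ≤ (317/100) * (x^2 - y * w) - (4513/10000) * (p^2 - x * y) := by
  subst hL
  linarith only [mul_nonneg hp hLCp, mul_nonneg hx hLCp, mul_nonneg hx hy, mul_nonneg hLCp hEx, mul_nonneg hy hy1, mul_nonneg hM hp1, mul_nonneg hM hx1, mul_nonneg hy hw]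

theorem gA (M o p x y w : ℝ) (hM : 0 ≤ M) (ho : 0 ≤ o) (ho1 : 0 ≤ M - o)
    (hp : 0 ≤ p) (hp1 : 0 ≤ M - p) (hx : 0 ≤ x)
    (hx1 : 0 ≤ M - x) (hy : 0 ≤ y) (hy1 : 0 ≤ M - y)
    (hU0o : 0 ≤ (1903/2500) * o + (597/2500) * M - p) (hLAp : 0 ≤ x - ((4513/10000) * p - (127/1250) * M)) (hLBp : 0 ≤ x - ((8651/10000) * p - (154/625) * M))
    (hLCp : 0 ≤ x - ((3081/2500) * p - (4163/10000) * M)) (hLDp : 0 ≤ x - ((8051/5000) * p - (1603/2500) * M)) (hEp : 0 ≤ x - ((28811/10000) * p - (12991/10000) * o - (291/500) * M))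
    (hU0p : 0 ≤ (1903/2500) * p + (597/2500) * M - x) (hU1p : 0 ≤ (1121/1250) * p - (843/5000) * o + (1359/5000) * M - x) (hLAx : 0 ≤ y - ((4513/10000) * x - (127/1250) * M))
    (hLBx : 0 ≤ y - ((8651/10000) * x - (154/625) * M)) (hLCx : 0 ≤ y - ((3081/2500) * x - (4163/10000) * M)) (hLDx : 0 ≤ y - ((8051/5000) * x - (1603/2500) * M))
    (hEx : 0 ≤ y - ((28811/10000) * x - (12991/10000) * p - (291/500) * M)) (hU0x : 0 ≤ (1903/2500) * x + (597/2500) * M - y) (hU1x : 0 ≤ (1121/1250) * x - (843/5000) * p + (1359/5000) * M - y)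
    (hw : 0 ≤ (1121/1250) * y - (843/5000) * x + (1359/5000) * M - w)
    (hL : y = (4513/10000) * x - (127/1250) * M) :
    0 ≤ x^2 - y * w := by
  subst hL
  linarith only [mul_nonneg ho1 hy, mul_nonneg hp hy, mul_nonneg hx hy, mul_nonneg hEp hy, mul_nonneg hLCx hEx, mul_nonneg hM hp1, mul_nonneg hM hx1, mul_nonneg hy hw]

theorem fB (M o p x y w : ℝ) (hM : 0 ≤ M) (ho : 0 ≤ o) (ho1 : 0 ≤ M - o)
    (hp : 0 ≤ p) (hp1 : 0 ≤ M - p) (hx : 0 ≤ x)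
    (hx1 : 0 ≤ M - x) (hy : 0 ≤ y) (hy1 : 0 ≤ M - y)
    (hU0o : 0 ≤ (1903/2500) * o + (597/2500) * M - p) (hLAp : 0 ≤ x - ((4513/10000) * p - (127/1250) * M)) (hLBp : 0 ≤ x - ((8651/10000) * p - (154/625) * M))
    (hLCp : 0 ≤ x - ((3081/2500) * p - (4163/10000) * M)) (hLDp : 0 ≤ x - ((8051/5000) * p - (1603/2500) * M)) (hEp : 0 ≤ x - ((28811/10000) * p - (12991/10000) * o - (291/500) * M))
    (hU0p : 0 ≤ (1903/2500) * p + (597/2500) * M - x) (hU1p : 0 ≤ (1121/1250) * p - (843/5000) * o + (1359/5000) * M - x) (hLAx : 0 ≤ y - ((4513/10000) * x - (127/1250) * M))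
    (hLBx : 0 ≤ y - ((8651/10000) * x - (154/625) * M)) (hLCx : 0 ≤ y - ((3081/2500) * x - (4163/10000) * M)) (hLDx : 0 ≤ y - ((8051/5000) * x - (1603/2500) * M))
    (hEx : 0 ≤ y - ((28811/10000) * x - (12991/10000) * p - (291/500) * M)) (hU0x : 0 ≤ (1903/2500) * x + (597/2500) * M - y) (hU1x : 0 ≤ (1121/1250) * x - (843/5000) * p + (1359/5000) * M - y)
    (hw : 0 ≤ (1121/1250) * y - (843/5000) * x + (1359/5000) * M - w)
    (hL : y = (8651/10000) * x - (154/625) * M) :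
    (1/200) * (M * (2 * M - p - x)) ≤ (317/100) * (x^2 - y * w) - (8651/10000) * (p^2 - x * y) := by
  subst hL
  linarith only [mul_nonneg hM hLAx, mul_nonneg ho1 hLDp, mul_nonneg hp hLDp, mul_nonneg hx hLDp, mul_nonneg hx hLAx, mul_nonneg hLDp hEp, mul_nonneg hM hp1, mul_nonneg hM hx1, mul_nonneg hy hw]

theorem gB (M o p x y w : ℝ) (hM : 0 ≤ M) (ho : 0 ≤ o) (ho1 : 0 ≤ M - o)
    (hp : 0 ≤ p) (hp1 : 0 ≤ M - p) (hx : 0 ≤ x)
    (hx1 : 0 ≤ M - x) (hy : 0 ≤ y) (hy1 : 0 ≤ M - y)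
    (hU0o : 0 ≤ (1903/2500) * o + (597/2500) * M - p) (hLAp : 0 ≤ x - ((4513/10000) * p - (127/1250) * M)) (hLBp : 0 ≤ x - ((8651/10000) * p - (154/625) * M))
    (hLCp : 0 ≤ x - ((3081/2500) * p - (4163/10000) * M)) (hLDp : 0 ≤ x - ((8051/5000) * p - (1603/2500) * M)) (hEp : 0 ≤ x - ((28811/10000) * p - (12991/10000) * o - (291/500) * M))
    (hU0p : 0 ≤ (1903/2500) * p + (597/2500) * M - x) (hU1p : 0 ≤ (1121/1250) * p - (843/5000) * o + (1359/5000) * M - x) (hLAx : 0 ≤ y - ((4513/10000) * x - (127/1250) * M))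
    (hLBx : 0 ≤ y - ((8651/10000) * x - (154/625) * M)) (hLCx : 0 ≤ y - ((3081/2500) * x - (4163/10000) * M)) (hLDx : 0 ≤ y - ((8051/5000) * x - (1603/2500) * M))
    (hEx : 0 ≤ y - ((28811/10000) * x - (12991/10000) * p - (291/500) * M)) (hU0x : 0 ≤ (1903/2500) * x + (597/2500) * M - y) (hU1x : 0 ≤ (1121/1250) * x - (843/5000) * p + (1359/5000) * M - y)
    (hw : 0 ≤ (1121/1250) * y - (843/5000) * x + (1359/5000) * M - w)
    (hL : y = (8651/10000) * x - (154/625) * M) :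
    0 ≤ x^2 - y * w := by
  subst hL
  linarith only [mul_nonneg ho hLAx, mul_nonneg ho1 hLAx, mul_nonneg ho1 hEx, mul_nonneg hp hLAx, mul_nonneg hEp hEx, mul_nonneg hLDx hEx, mul_nonneg hEx hEx, mul_nonneg hM hp1, mul_nonneg hM hx1, mul_nonneg hy hw]

theorem fC (M o p x y w : ℝ) (hM : 0 ≤ M) (ho : 0 ≤ o) (ho1 : 0 ≤ M - o)
    (hp : 0 ≤ p) (hp1 : 0 ≤ M - p) (hx : 0 ≤ x)
    (hx1 : 0 ≤ M - x) (hy : 0 ≤ y) (hy1 : 0 ≤ M - y)
    (hU0o : 0 ≤ (1903/2500) * o + (597/2500) * M - p) (hLAp : 0 ≤ x - ((4513/10000) * p - (127/1250) * M)) (hLBp : 0 ≤ x - ((8651/10000) * p - (154/625) * M))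
    (hLCp : 0 ≤ x - ((3081/2500) * p - (4163/10000) * M)) (hLDp : 0 ≤ x - ((8051/5000) * p - (1603/2500) * M)) (hEp : 0 ≤ x - ((28811/10000) * p - (12991/10000) * o - (291/500) * M))
    (hU0p : 0 ≤ (1903/2500) * p + (597/2500) * M - x) (hU1p : 0 ≤ (1121/1250) * p - (843/5000) * o + (1359/5000) * M - x) (hLAx : 0 ≤ y - ((4513/10000) * x - (127/1250) * M))
    (hLBx : 0 ≤ y - ((8651/10000) * x - (154/625) * M)) (hLCx : 0 ≤ y - ((3081/2500) * x - (4163/10000) * M)) (hLDx : 0 ≤ y - ((8051/5000) * x - (1603/2500) * M))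
    (hEx : 0 ≤ y - ((28811/10000) * x - (12991/10000) * p - (291/500) * M)) (hU0x : 0 ≤ (1903/2500) * x + (597/2500) * M - y) (hU1x : 0 ≤ (1121/1250) * x - (843/5000) * p + (1359/5000) * M - y)
    (hw : 0 ≤ (1121/1250) * y - (843/5000) * x + (1359/5000) * M - w)
    (hL : y = (3081/2500) * x - (4163/10000) * M) :
    (1/200) * (M * (2 * M - p - x)) ≤ (317/100) * (x^2 - y * w) - (3081/2500) * (p^2 - x * y) := by
  subst hL
  linarith only [mul_nonneg hM hLBx, mul_nonneg ho1 hLDp, mul_nonneg hp hLDp, mul_nonneg hLDp hEp, mul_nonneg hLDp hy, mul_nonneg hy hLBx, mul_nonneg hM hp1, mul_nonneg hM hx1, mul_nonneg hy hw]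

theorem gC (M o p x y w : ℝ) (hM : 0 ≤ M) (ho : 0 ≤ o) (ho1 : 0 ≤ M - o)
    (hp : 0 ≤ p) (hp1 : 0 ≤ M - p) (hx : 0 ≤ x)
    (hx1 : 0 ≤ M - x) (hy : 0 ≤ y) (hy1 : 0 ≤ M - y)
    (hU0o : 0 ≤ (1903/2500) * o + (597/2500) * M - p) (hLAp : 0 ≤ x - ((4513/10000) * p - (127/1250) * M)) (hLBp : 0 ≤ x - ((8651/10000) * p - (154/625) * M))
    (hLCp : 0 ≤ x - ((3081/2500) * p - (4163/10000) * M)) (hLDp : 0 ≤ x - ((8051/5000) * p - (1603/2500) * M)) (hEp : 0 ≤ x - ((28811/10000) * p - (12991/10000) * o - (291/500) * M))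
    (hU0p : 0 ≤ (1903/2500) * p + (597/2500) * M - x) (hU1p : 0 ≤ (1121/1250) * p - (843/5000) * o + (1359/5000) * M - x) (hLAx : 0 ≤ y - ((4513/10000) * x - (127/1250) * M))
    (hLBx : 0 ≤ y - ((8651/10000) * x - (154/625) * M)) (hLCx : 0 ≤ y - ((3081/2500) * x - (4163/10000) * M)) (hLDx : 0 ≤ y - ((8051/5000) * x - (1603/2500) * M))
    (hEx : 0 ≤ y - ((28811/10000) * x - (12991/10000) * p - (291/500) * M)) (hU0x : 0 ≤ (1903/2500) * x + (597/2500) * M - y) (hU1x : 0 ≤ (1121/1250) * x - (843/5000) * p + (1359/5000) * M - y)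
    (hw : 0 ≤ (1121/1250) * y - (843/5000) * x + (1359/5000) * M - w)
    (hL : y = (3081/2500) * x - (4163/10000) * M) :
    0 ≤ x^2 - y * w := by
  subst hL
  linarith only [mul_nonneg hM hLBx, mul_nonneg ho hEx, mul_nonneg ho1 hLBx, mul_nonneg ho1 hEx, mul_nonneg hEp hLBx, mul_nonneg hy hEx, mul_nonneg hM hp1, mul_nonneg hM hx1, mul_nonneg hy hw]

theorem fD (M o p x y w : ℝ) (hM : 0 ≤ M) (ho : 0 ≤ o) (ho1 : 0 ≤ M - o)
    (hp : 0 ≤ p) (hp1 : 0 ≤ M - p) (hx : 0 ≤ x)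
    (hx1 : 0 ≤ M - x) (hy : 0 ≤ y) (hy1 : 0 ≤ M - y)
    (hU0o : 0 ≤ (1903/2500) * o + (597/2500) * M - p) (hLAp : 0 ≤ x - ((4513/10000) * p - (127/1250) * M)) (hLBp : 0 ≤ x - ((8651/10000) * p - (154/625) * M))
    (hLCp : 0 ≤ x - ((3081/2500) * p - (4163/10000) * M)) (hLDp : 0 ≤ x - ((8051/5000) * p - (1603/2500) * M)) (hEp : 0 ≤ x - ((28811/10000) * p - (12991/10000) * o - (291/500) * M))
    (hU0p : 0 ≤ (1903/2500) * p + (597/2500) * M - x) (hU1p : 0 ≤ (1121/1250) * p - (843/5000) * o + (1359/5000) * M - x) (hLAx : 0 ≤ y - ((4513/10000) * x - (127/1250) * M))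
    (hLBx : 0 ≤ y - ((8651/10000) * x - (154/625) * M)) (hLCx : 0 ≤ y - ((3081/2500) * x - (4163/10000) * M)) (hLDx : 0 ≤ y - ((8051/5000) * x - (1603/2500) * M))
    (hEx : 0 ≤ y - ((28811/10000) * x - (12991/10000) * p - (291/500) * M)) (hU0x : 0 ≤ (1903/2500) * x + (597/2500) * M - y) (hU1x : 0 ≤ (1121/1250) * x - (843/5000) * p + (1359/5000) * M - y)
    (hw : 0 ≤ (1121/1250) * y - (843/5000) * x + (1359/5000) * M - w)
    (hL : y = (8051/5000) * x - (1603/2500) * M) :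
    (1/200) * (M * (2 * M - p - x)) ≤ (317/100) * (x^2 - y * w) - (8051/5000) * (p^2 - x * y) := by
  subst hL
  linarith only [mul_nonneg hM hLCx, mul_nonneg ho hLDp, mul_nonneg ho1 hLDp, mul_nonneg hp hLDp, mul_nonneg hLDp hy, mul_nonneg hy1 hLCx, mul_nonneg hM hp1, mul_nonneg hM hx1, mul_nonneg hy hw]

theorem gD (M o p x y w : ℝ) (hM : 0 ≤ M) (ho : 0 ≤ o) (ho1 : 0 ≤ M - o)
    (hp : 0 ≤ p) (hp1 : 0 ≤ M - p) (hx : 0 ≤ x)
    (hx1 : 0 ≤ M - x) (hy : 0 ≤ y) (hy1 : 0 ≤ M - y)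
    (hU0o : 0 ≤ (1903/2500) * o + (597/2500) * M - p) (hLAp : 0 ≤ x - ((4513/10000) * p - (127/1250) * M)) (hLBp : 0 ≤ x - ((8651/10000) * p - (154/625) * M))
    (hLCp : 0 ≤ x - ((3081/2500) * p - (4163/10000) * M)) (hLDp : 0 ≤ x - ((8051/5000) * p - (1603/2500) * M)) (hEp : 0 ≤ x - ((28811/10000) * p - (12991/10000) * o - (291/500) * M))
    (hU0p : 0 ≤ (1903/2500) * p + (597/2500) * M - x) (hU1p : 0 ≤ (1121/1250) * p - (843/5000) * o + (1359/5000) * M - x) (hLAx : 0 ≤ y - ((4513/10000) * x - (127/1250) * M))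
    (hLBx : 0 ≤ y - ((8651/10000) * x - (154/625) * M)) (hLCx : 0 ≤ y - ((3081/2500) * x - (4163/10000) * M)) (hLDx : 0 ≤ y - ((8051/5000) * x - (1603/2500) * M))
    (hEx : 0 ≤ y - ((28811/10000) * x - (12991/10000) * p - (291/500) * M)) (hU0x : 0 ≤ (1903/2500) * x + (597/2500) * M - y) (hU1x : 0 ≤ (1121/1250) * x - (843/5000) * p + (1359/5000) * M - y)
    (hw : 0 ≤ (1121/1250) * y - (843/5000) * x + (1359/5000) * M - w)
    (hL : y = (8051/5000) * x - (1603/2500) * M) :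
    0 ≤ x^2 - y * w := by
  subst hL
  linarith only [mul_nonneg hM hLCx, mul_nonneg hM hEx, mul_nonneg hy1 hLCx, mul_nonneg hM hp1, mul_nonneg hM hx1, mul_nonneg hy hw]

theorem fE0n (M o p x y w : ℝ) (hM : 0 ≤ M) (ho : 0 ≤ o) (ho1 : 0 ≤ M - o)
    (hp : 0 ≤ p) (hp1 : 0 ≤ M - p) (hx : 0 ≤ x)
    (hx1 : 0 ≤ M - x) (hy : 0 ≤ y) (hy1 : 0 ≤ M - y)
    (hU0o : 0 ≤ (1903/2500) * o + (597/2500) * M - p) (hLAp : 0 ≤ x - ((4513/10000) * p - (127/1250) * M)) (hLBp : 0 ≤ x - ((8651/10000) * p - (154/625) * M))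
    (hLCp : 0 ≤ x - ((3081/2500) * p - (4163/10000) * M)) (hLDp : 0 ≤ x - ((8051/5000) * p - (1603/2500) * M)) (hEp : 0 ≤ x - ((28811/10000) * p - (12991/10000) * o - (291/500) * M))
    (hU0p : 0 ≤ (1903/2500) * p + (597/2500) * M - x) (hU1p : 0 ≤ (1121/1250) * p - (843/5000) * o + (1359/5000) * M - x) (hLAx : 0 ≤ y - ((4513/10000) * x - (127/1250) * M))
    (hLBx : 0 ≤ y - ((8651/10000) * x - (154/625) * M)) (hLCx : 0 ≤ y - ((3081/2500) * x - (4163/10000) * M)) (hLDx : 0 ≤ y - ((8051/5000) * x - (1603/2500) * M))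
    (hEx : 0 ≤ y - ((28811/10000) * x - (12991/10000) * p - (291/500) * M)) (hU0x : 0 ≤ (1903/2500) * x + (597/2500) * M - y) (hU1x : 0 ≤ (1121/1250) * x - (843/5000) * p + (1359/5000) * M - y)
    (hc : 0 ≤ x - ((28811/10000) * p - (291/500) * M)) (hw : 0 ≤ (1121/1250) * y - (843/5000) * x + (1359/5000) * M - w)
    (hL : y = (28811/10000) * x - (12991/10000) * p - (291/500) * M) :
    (1/200) * (M * (2 * M - p - x)) ≤ (317/100) * (x^2 - y * w) - (28811/10000) * (p^2 - x * y) + (12991/10000) * ((100/317) * (o^2 - p * x)) := by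
  subst hL
  linarith only [mul_nonneg ho ho, mul_nonneg hp hLBx, mul_nonneg hp hc, mul_nonneg hU0p hy, mul_nonneg hU0p hLAx, mul_nonneg hy hc, mul_nonneg hM hp1, mul_nonneg hM hx1, mul_nonneg hy hw]

theorem fE0p1 (M o p x y w : ℝ) (hM : 0 ≤ M) (ho : 0 ≤ o) (ho1 : 0 ≤ M - o)
    (hp : 0 ≤ p) (hp1 : 0 ≤ M - p) (hx : 0 ≤ x)
    (hx1 : 0 ≤ M - x) (hy : 0 ≤ y) (hy1 : 0 ≤ M - y)
    (hU0o : 0 ≤ (1903/2500) * o + (597/2500) * M - p) (hLAp : 0 ≤ x - ((4513/10000) * p - (127/1250) * M)) (hLBp : 0 ≤ x - ((8651/10000) * p - (154/625) * M))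
    (hLCp : 0 ≤ x - ((3081/2500) * p - (4163/10000) * M)) (hLDp : 0 ≤ x - ((8051/5000) * p - (1603/2500) * M)) (hEp : 0 ≤ x - ((28811/10000) * p - (12991/10000) * o - (291/500) * M))
    (hU0p : 0 ≤ (1903/2500) * p + (597/2500) * M - x) (hU1p : 0 ≤ (1121/1250) * p - (843/5000) * o + (1359/5000) * M - x) (hLAx : 0 ≤ y - ((4513/10000) * x - (127/1250) * M))
    (hLBx : 0 ≤ y - ((8651/10000) * x - (154/625) * M)) (hLCx : 0 ≤ y - ((3081/2500) * x - (4163/10000) * M)) (hLDx : 0 ≤ y - ((8051/5000) * x - (1603/2500) * M))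
    (hEx : 0 ≤ y - ((28811/10000) * x - (12991/10000) * p - (291/500) * M)) (hU0x : 0 ≤ (1903/2500) * x + (597/2500) * M - y) (hU1x : 0 ≤ (1121/1250) * x - (843/5000) * p + (1359/5000) * M - y)
    (hc : 0 ≤ (28811/10000) * p - (291/500) * M - x) (hd : 0 ≤ (1903/2500) * y + (597/2500) * M - ((1121/1250) * y - (843/5000) * x + (1359/5000) * M)) (hw : 0 ≤ (1121/1250) * y - (843/5000) * x + (1359/5000) * M - w)
    (hL : y = (28811/10000) * x - (12991/10000) * p - (291/500) * M) :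
    (1/200) * (M * (2 * M - p - x)) ≤ (317/100) * (x^2 - y * w) - (28811/10000) * (p^2 - x * y) + (12991/10000) * ((100/317) * (o^2 - p * x)) := by
  subst hL
  linarith only [mul_nonneg ho1 hLBx, mul_nonneg ho1 hLCx, mul_nonneg hEp hLBx, mul_nonneg hEp hc, mul_nonneg hU1p hLCx, mul_nonneg hU0o hU0o, mul_nonneg hU0o hLDx, mul_nonneg hLDx hd, mul_nonneg hM hp1, mul_nonneg hM hx1, mul_nonneg hy hw]

theorem fE0p0 (M o p x y w : ℝ) (hM : 0 ≤ M) (ho : 0 ≤ o) (ho1 : 0 ≤ M - o)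
    (hp : 0 ≤ p) (hp1 : 0 ≤ M - p) (hx : 0 ≤ x)
    (hx1 : 0 ≤ M - x) (hy : 0 ≤ y) (hy1 : 0 ≤ M - y)
    (hU0o : 0 ≤ (1903/2500) * o + (597/2500) * M - p) (hLAp : 0 ≤ x - ((4513/10000) * p - (127/1250) * M)) (hLBp : 0 ≤ x - ((8651/10000) * p - (154/625) * M))
    (hLCp : 0 ≤ x - ((3081/2500) * p - (4163/10000) * M)) (hLDp : 0 ≤ x - ((8051/5000) * p - (1603/2500) * M)) (hEp : 0 ≤ x - ((28811/10000) * p - (12991/10000) * o - (291/500) * M))
    (hU0p : 0 ≤ (1903/2500) * p + (597/2500) * M - x) (hU1p : 0 ≤ (1121/1250) * p - (843/5000) * o + (1359/5000) * M - x) (hLAx : 0 ≤ y - ((4513/10000) * x - (127/1250) * M))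
    (hLBx : 0 ≤ y - ((8651/10000) * x - (154/625) * M)) (hLCx : 0 ≤ y - ((3081/2500) * x - (4163/10000) * M)) (hLDx : 0 ≤ y - ((8051/5000) * x - (1603/2500) * M))
    (hEx : 0 ≤ y - ((28811/10000) * x - (12991/10000) * p - (291/500) * M)) (hU0x : 0 ≤ (1903/2500) * x + (597/2500) * M - y) (hU1x : 0 ≤ (1121/1250) * x - (843/5000) * p + (1359/5000) * M - y)
    (hc : 0 ≤ (28811/10000) * p - (291/500) * M - x) (hd : 0 ≤ (1121/1250) * y - (843/5000) * x + (1359/5000) * M - ((1903/2500) * y + (597/2500) * M)) (hw : 0 ≤ (1903/2500) * y + (597/2500) * M - w)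
    (hL : y = (28811/10000) * x - (12991/10000) * p - (291/500) * M) :
    (1/200) * (M * (2 * M - p - x)) ≤ (317/100) * (x^2 - y * w) - (28811/10000) * (p^2 - x * y) + (12991/10000) * ((100/317) * (o^2 - p * x)) := by
  subst hL
  linarith only [mul_nonneg hEp hEp, mul_nonneg hEp hc, mul_nonneg hU0p hc, mul_nonneg hy1 hd, mul_nonneg hU0x hd, mul_nonneg hc hd, mul_nonneg hM hp1, mul_nonneg hM hx1, mul_nonneg hy hw]

theorem fE1n (M o p x y w : ℝ) (hM : 0 ≤ M) (ho : 0 ≤ o) (ho1 : 0 ≤ M - o)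
    (hp : 0 ≤ p) (hp1 : 0 ≤ M - p) (hx : 0 ≤ x)
    (hx1 : 0 ≤ M - x) (hy : 0 ≤ y) (hy1 : 0 ≤ M - y)
    (hU0o : 0 ≤ (1903/2500) * o + (597/2500) * M - p) (hLAp : 0 ≤ x - ((4513/10000) * p - (127/1250) * M)) (hLBp : 0 ≤ x - ((8651/10000) * p - (154/625) * M))
    (hLCp : 0 ≤ x - ((3081/2500) * p - (4163/10000) * M)) (hLDp : 0 ≤ x - ((8051/5000) * p - (1603/2500) * M)) (hEp : 0 ≤ x - ((28811/10000) * p - (12991/10000) * o - (291/500) * M))
    (hU0p : 0 ≤ (1903/2500) * p + (597/2500) * M - x) (hU1p : 0 ≤ (1121/1250) * p - (843/5000) * o + (1359/5000) * M - x) (hLAx : 0 ≤ y - ((4513/10000) * x - (127/1250) * M))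
    (hLBx : 0 ≤ y - ((8651/10000) * x - (154/625) * M)) (hLCx : 0 ≤ y - ((3081/2500) * x - (4163/10000) * M)) (hLDx : 0 ≤ y - ((8051/5000) * x - (1603/2500) * M))
    (hEx : 0 ≤ y - ((28811/10000) * x - (12991/10000) * p - (291/500) * M)) (hU0x : 0 ≤ (1903/2500) * x + (597/2500) * M - y) (hU1x : 0 ≤ (1121/1250) * x - (843/5000) * p + (1359/5000) * M - y)
    (hc : 0 ≤ x - ((28811/10000) * p - (291/500) * M)) (hw : 0 ≤ (1121/1250) * y - (843/5000) * x + (1359/5000) * M - w)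
    (hL : y = (28811/10000) * x - (12991/10000) * p - (291/500) * M) :
    (1/200) * (M * (2 * M - p - x)) ≤ (317/100) * (x^2 - y * w) - (28811/10000) * (p^2 - x * y) + (12991/10000) * ((100/366) * (o^2 - p * x)) := by
  subst hL
  linarith only [mul_nonneg ho ho, mul_nonneg hp hLBx, mul_nonneg hp hc, mul_nonneg hU0p hy, mul_nonneg hU0p hLAx, mul_nonneg hy hc, mul_nonneg hM hp1, mul_nonneg hM hx1, mul_nonneg hy hw]

theorem fE1p1 (M o p x y w : ℝ) (hM : 0 ≤ M) (ho : 0 ≤ o) (ho1 : 0 ≤ M - o)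
    (hp : 0 ≤ p) (hp1 : 0 ≤ M - p) (hx : 0 ≤ x)
    (hx1 : 0 ≤ M - x) (hy : 0 ≤ y) (hy1 : 0 ≤ M - y)
    (hU0o : 0 ≤ (1903/2500) * o + (597/2500) * M - p) (hLAp : 0 ≤ x - ((4513/10000) * p - (127/1250) * M)) (hLBp : 0 ≤ x - ((8651/10000) * p - (154/625) * M))
    (hLCp : 0 ≤ x - ((3081/2500) * p - (4163/10000) * M)) (hLDp : 0 ≤ x - ((8051/5000) * p - (1603/2500) * M)) (hEp : 0 ≤ x - ((28811/10000) * p - (12991/10000) * o - (291/500) * M))
    (hU0p : 0 ≤ (1903/2500) * p + (597/2500) * M - x) (hU1p : 0 ≤ (1121/1250) * p - (843/5000) * o + (1359/5000) * M - x) (hLAx : 0 ≤ y - ((4513/10000) * x - (127/1250) * M))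
    (hLBx : 0 ≤ y - ((8651/10000) * x - (154/625) * M)) (hLCx : 0 ≤ y - ((3081/2500) * x - (4163/10000) * M)) (hLDx : 0 ≤ y - ((8051/5000) * x - (1603/2500) * M))
    (hEx : 0 ≤ y - ((28811/10000) * x - (12991/10000) * p - (291/500) * M)) (hU0x : 0 ≤ (1903/2500) * x + (597/2500) * M - y) (hU1x : 0 ≤ (1121/1250) * x - (843/5000) * p + (1359/5000) * M - y)
    (hc : 0 ≤ (28811/10000) * p - (291/500) * M - x) (hd : 0 ≤ (1903/2500) * y + (597/2500) * M - ((1121/1250) * y - (843/5000) * x + (1359/5000) * M)) (hw : 0 ≤ (1121/1250) * y - (843/5000) * x + (1359/5000) * M - w)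
    (hL : y = (28811/10000) * x - (12991/10000) * p - (291/500) * M) :
    (1/200) * (M * (2 * M - p - x)) ≤ (317/100) * (x^2 - y * w) - (28811/10000) * (p^2 - x * y) + (12991/10000) * ((100/366) * (o^2 - p * x)) := by
  subst hL
  linarith only [mul_nonneg ho1 hLBx, mul_nonneg ho1 hLCx, mul_nonneg hEp hEp, mul_nonneg hEp hy1, mul_nonneg hEp hLAx, mul_nonneg hEp hc, mul_nonneg hy1 hLCx, mul_nonneg hLDx hd, mul_nonneg hM hp1, mul_nonneg hM hx1, mul_nonneg hy hw]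

theorem fE1p0 (M o p x y w : ℝ) (hM : 0 ≤ M) (ho : 0 ≤ o) (ho1 : 0 ≤ M - o)
    (hp : 0 ≤ p) (hp1 : 0 ≤ M - p) (hx : 0 ≤ x)
    (hx1 : 0 ≤ M - x) (hy : 0 ≤ y) (hy1 : 0 ≤ M - y)
    (hU0o : 0 ≤ (1903/2500) * o + (597/2500) * M - p) (hLAp : 0 ≤ x - ((4513/10000) * p - (127/1250) * M)) (hLBp : 0 ≤ x - ((8651/10000) * p - (154/625) * M))
    (hLCp : 0 ≤ x - ((3081/2500) * p - (4163/10000) * M)) (hLDp : 0 ≤ x - ((8051/5000) * p - (1603/2500) * M)) (hEp : 0 ≤ x - ((28811/10000) * p - (12991/10000) * o - (291/500) * M))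
    (hU0p : 0 ≤ (1903/2500) * p + (597/2500) * M - x) (hU1p : 0 ≤ (1121/1250) * p - (843/5000) * o + (1359/5000) * M - x) (hLAx : 0 ≤ y - ((4513/10000) * x - (127/1250) * M))
    (hLBx : 0 ≤ y - ((8651/10000) * x - (154/625) * M)) (hLCx : 0 ≤ y - ((3081/2500) * x - (4163/10000) * M)) (hLDx : 0 ≤ y - ((8051/5000) * x - (1603/2500) * M))
    (hEx : 0 ≤ y - ((28811/10000) * x - (12991/10000) * p - (291/500) * M)) (hU0x : 0 ≤ (1903/2500) * x + (597/2500) * M - y) (hU1x : 0 ≤ (1121/1250) * x - (843/5000) * p + (1359/5000) * M - y)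
    (hc : 0 ≤ (28811/10000) * p - (291/500) * M - x) (hd : 0 ≤ (1121/1250) * y - (843/5000) * x + (1359/5000) * M - ((1903/2500) * y + (597/2500) * M)) (hw : 0 ≤ (1903/2500) * y + (597/2500) * M - w)
    (hL : y = (28811/10000) * x - (12991/10000) * p - (291/500) * M) :
    (1/200) * (M * (2 * M - p - x)) ≤ (317/100) * (x^2 - y * w) - (28811/10000) * (p^2 - x * y) + (12991/10000) * ((100/366) * (o^2 - p * x)) := by
  subst hL
  linarith only [mul_nonneg hEp hEp, mul_nonneg hEp hc, mul_nonneg hU0p hc, mul_nonneg hy1 hd, mul_nonneg hU0x hd, mul_nonneg hc hd, mul_nonneg hM hp1, mul_nonneg hM hx1, mul_nonneg hy hw]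

theorem gE (M o p x y w : ℝ) (hM : 0 ≤ M) (ho : 0 ≤ o) (ho1 : 0 ≤ M - o)
    (hp : 0 ≤ p) (hp1 : 0 ≤ M - p) (hx : 0 ≤ x)
    (hx1 : 0 ≤ M - x) (hy : 0 ≤ y) (hy1 : 0 ≤ M - y)
    (hU0o : 0 ≤ (1903/2500) * o + (597/2500) * M - p) (hLAp : 0 ≤ x - ((4513/10000) * p - (127/1250) * M)) (hLBp : 0 ≤ x - ((8651/10000) * p - (154/625) * M))
    (hLCp : 0 ≤ x - ((3081/2500) * p - (4163/10000) * M)) (hLDp : 0 ≤ x - ((8051/5000) * p - (1603/2500) * M)) (hEp : 0 ≤ x - ((28811/10000) * p - (12991/10000) * o - (291/500) * M))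
    (hU0p : 0 ≤ (1903/2500) * p + (597/2500) * M - x) (hU1p : 0 ≤ (1121/1250) * p - (843/5000) * o + (1359/5000) * M - x) (hLAx : 0 ≤ y - ((4513/10000) * x - (127/1250) * M))
    (hLBx : 0 ≤ y - ((8651/10000) * x - (154/625) * M)) (hLCx : 0 ≤ y - ((3081/2500) * x - (4163/10000) * M)) (hLDx : 0 ≤ y - ((8051/5000) * x - (1603/2500) * M))
    (hEx : 0 ≤ y - ((28811/10000) * x - (12991/10000) * p - (291/500) * M)) (hU0x : 0 ≤ (1903/2500) * x + (597/2500) * M - y) (hU1x : 0 ≤ (1121/1250) * x - (843/5000) * p + (1359/5000) * M - y)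
    (hw : 0 ≤ (1121/1250) * y - (843/5000) * x + (1359/5000) * M - w)
    (hL : y = (28811/10000) * x - (12991/10000) * p - (291/500) * M) :
    0 ≤ x^2 - y * w := by
  subst hL
  linarith only [mul_nonneg ho1 hp, mul_nonneg hp hEp, mul_nonneg hp hU0p, mul_nonneg hU0p hy, mul_nonneg hU0p hy1, mul_nonneg hM hp1, mul_nonneg hM hx1, mul_nonneg hy hw]

theorem fU0 (M o p x y w : ℝ) (hM : 0 ≤ M) (ho : 0 ≤ o) (ho1 : 0 ≤ M - o)
    (hp : 0 ≤ p) (hp1 : 0 ≤ M - p) (hx : 0 ≤ x)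
    (hx1 : 0 ≤ M - x) (hy : 0 ≤ y) (hy1 : 0 ≤ M - y)
    (hU0o : 0 ≤ (1903/2500) * o + (597/2500) * M - p) (hLAp : 0 ≤ x - ((4513/10000) * p - (127/1250) * M)) (hLBp : 0 ≤ x - ((8651/10000) * p - (154/625) * M))
    (hLCp : 0 ≤ x - ((3081/2500) * p - (4163/10000) * M)) (hLDp : 0 ≤ x - ((8051/5000) * p - (1603/2500) * M)) (hEp : 0 ≤ x - ((28811/10000) * p - (12991/10000) * o - (291/500) * M))
    (hU0p : 0 ≤ (1903/2500) * p + (597/2500) * M - x) (hU1p : 0 ≤ (1121/1250) * p - (843/5000) * o + (1359/5000) * M - x) (hLAx : 0 ≤ y - ((4513/10000) * x - (127/1250) * M))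
    (hLBx : 0 ≤ y - ((8651/10000) * x - (154/625) * M)) (hLCx : 0 ≤ y - ((3081/2500) * x - (4163/10000) * M)) (hLDx : 0 ≤ y - ((8051/5000) * x - (1603/2500) * M))
    (hEx : 0 ≤ y - ((28811/10000) * x - (12991/10000) * p - (291/500) * M)) (hU0x : 0 ≤ (1903/2500) * x + (597/2500) * M - y) (hU1x : 0 ≤ (1121/1250) * x - (843/5000) * p + (1359/5000) * M - y)
    (hw : 0 ≤ w - ((28811/10000) * y - (12991/10000) * x - (291/500) * M))
    (hL : y = (1903/2500) * x + (597/2500) * M) :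
    (1/200) * (M * (2 * M - p - x)) ≤ (1903/2500) * (p^2 - x * y) - (317/100) * (x^2 - y * w) := by
  subst hL
  linarith only [mul_nonneg ho1 hx, mul_nonneg hp hU0p, mul_nonneg hx hEp, mul_nonneg hx hEx, mul_nonneg hU1x hU1x, mul_nonneg hM hp1, mul_nonneg hM hx1, mul_nonneg hy hw]

theorem gU0 (M o p x y w : ℝ) (hM : 0 ≤ M) (ho : 0 ≤ o) (ho1 : 0 ≤ M - o)
    (hp : 0 ≤ p) (hp1 : 0 ≤ M - p) (hx : 0 ≤ x)
    (hx1 : 0 ≤ M - x) (hy : 0 ≤ y) (hy1 : 0 ≤ M - y)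
    (hU0o : 0 ≤ (1903/2500) * o + (597/2500) * M - p) (hLAp : 0 ≤ x - ((4513/10000) * p - (127/1250) * M)) (hLBp : 0 ≤ x - ((8651/10000) * p - (154/625) * M))
    (hLCp : 0 ≤ x - ((3081/2500) * p - (4163/10000) * M)) (hLDp : 0 ≤ x - ((8051/5000) * p - (1603/2500) * M)) (hEp : 0 ≤ x - ((28811/10000) * p - (12991/10000) * o - (291/500) * M))
    (hU0p : 0 ≤ (1903/2500) * p + (597/2500) * M - x) (hU1p : 0 ≤ (1121/1250) * p - (843/5000) * o + (1359/5000) * M - x) (hLAx : 0 ≤ y - ((4513/10000) * x - (127/1250) * M))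
    (hLBx : 0 ≤ y - ((8651/10000) * x - (154/625) * M)) (hLCx : 0 ≤ y - ((3081/2500) * x - (4163/10000) * M)) (hLDx : 0 ≤ y - ((8051/5000) * x - (1603/2500) * M))
    (hEx : 0 ≤ y - ((28811/10000) * x - (12991/10000) * p - (291/500) * M)) (hU0x : 0 ≤ (1903/2500) * x + (597/2500) * M - y) (hU1x : 0 ≤ (1121/1250) * x - (843/5000) * p + (1359/5000) * M - y)
    (hw : 0 ≤ w - ((28811/10000) * y - (12991/10000) * x - (291/500) * M))
    (hL : y = (1903/2500) * x + (597/2500) * M) :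
    0 ≤ y * w - x^2 := by
  subst hL
  linarith only [mul_nonneg ho1 hp, mul_nonneg ho1 hx, mul_nonneg hp hEp, mul_nonneg hp hU0p, mul_nonneg hx hEp, mul_nonneg hx hEx, mul_nonneg hM hp1, mul_nonneg hM hx1, mul_nonneg hy hw]

theorem fU10 (M o p x y w : ℝ) (hM : 0 ≤ M) (ho : 0 ≤ o) (ho1 : 0 ≤ M - o)
    (hp : 0 ≤ p) (hp1 : 0 ≤ M - p) (hx : 0 ≤ x)
    (hx1 : 0 ≤ M - x) (hy : 0 ≤ y) (hy1 : 0 ≤ M - y)
    (hU0o : 0 ≤ (1903/2500) * o + (597/2500) * M - p) (hLAp : 0 ≤ x - ((4513/10000) * p - (127/1250) * M)) (hLBp : 0 ≤ x - ((8651/10000) * p - (154/625) * M))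
    (hLCp : 0 ≤ x - ((3081/2500) * p - (4163/10000) * M)) (hLDp : 0 ≤ x - ((8051/5000) * p - (1603/2500) * M)) (hEp : 0 ≤ x - ((28811/10000) * p - (12991/10000) * o - (291/500) * M))
    (hU0p : 0 ≤ (1903/2500) * p + (597/2500) * M - x) (hU1p : 0 ≤ (1121/1250) * p - (843/5000) * o + (1359/5000) * M - x) (hLAx : 0 ≤ y - ((4513/10000) * x - (127/1250) * M))
    (hLBx : 0 ≤ y - ((8651/10000) * x - (154/625) * M)) (hLCx : 0 ≤ y - ((3081/2500) * x - (4163/10000) * M)) (hLDx : 0 ≤ y - ((8051/5000) * x - (1603/2500) * M))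
    (hEx : 0 ≤ y - ((28811/10000) * x - (12991/10000) * p - (291/500) * M)) (hU0x : 0 ≤ (1903/2500) * x + (597/2500) * M - y) (hU1x : 0 ≤ (1121/1250) * x - (843/5000) * p + (1359/5000) * M - y)
    (hw : 0 ≤ w - ((28811/10000) * y - (12991/10000) * x - (291/500) * M))
    (hL : y = (1121/1250) * x - (843/5000) * p + (1359/5000) * M) :
    (1/200) * (M * (2 * M - p - x)) ≤ (1121/1250) * (p^2 - x * y) - (317/100) * (x^2 - y * w) - (843/5000) * ((100/317) * (M^2 - p * x)) := by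
  subst hL
  linarith only [mul_nonneg ho1 hx, mul_nonneg ho1 hLAp, mul_nonneg hx hEp, mul_nonneg hx hEx, mul_nonneg hLAp hEp, mul_nonneg hU0x hU0x, mul_nonneg hM hp1, mul_nonneg hM hx1, mul_nonneg hy hw]

theorem fU11 (M o p x y w : ℝ) (hM : 0 ≤ M) (ho : 0 ≤ o) (ho1 : 0 ≤ M - o)
    (hp : 0 ≤ p) (hp1 : 0 ≤ M - p) (hx : 0 ≤ x)
    (hx1 : 0 ≤ M - x) (hy : 0 ≤ y) (hy1 : 0 ≤ M - y)
    (hU0o : 0 ≤ (1903/2500) * o + (597/2500) * M - p) (hLAp : 0 ≤ x - ((4513/10000) * p - (127/1250) * M)) (hLBp : 0 ≤ x - ((8651/10000) * p - (154/625) * M))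
    (hLCp : 0 ≤ x - ((3081/2500) * p - (4163/10000) * M)) (hLDp : 0 ≤ x - ((8051/5000) * p - (1603/2500) * M)) (hEp : 0 ≤ x - ((28811/10000) * p - (12991/10000) * o - (291/500) * M))
    (hU0p : 0 ≤ (1903/2500) * p + (597/2500) * M - x) (hU1p : 0 ≤ (1121/1250) * p - (843/5000) * o + (1359/5000) * M - x) (hLAx : 0 ≤ y - ((4513/10000) * x - (127/1250) * M))
    (hLBx : 0 ≤ y - ((8651/10000) * x - (154/625) * M)) (hLCx : 0 ≤ y - ((3081/2500) * x - (4163/10000) * M)) (hLDx : 0 ≤ y - ((8051/5000) * x - (1603/2500) * M))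
    (hEx : 0 ≤ y - ((28811/10000) * x - (12991/10000) * p - (291/500) * M)) (hU0x : 0 ≤ (1903/2500) * x + (597/2500) * M - y) (hU1x : 0 ≤ (1121/1250) * x - (843/5000) * p + (1359/5000) * M - y)
    (hw : 0 ≤ w - ((28811/10000) * y - (12991/10000) * x - (291/500) * M))
    (hL : y = (1121/1250) * x - (843/5000) * p + (1359/5000) * M) :
    (1/200) * (M * (2 * M - p - x)) ≤ (1121/1250) * (p^2 - x * y) - (317/100) * (x^2 - y * w) - (843/5000) * ((100/366) * (M^2 - p * x)) := by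
  subst hL
  linarith only [mul_nonneg ho1 hx, mul_nonneg ho1 hLAp, mul_nonneg hx hEp, mul_nonneg hx hEx, mul_nonneg hLAp hEp, mul_nonneg hU0x hU0x, mul_nonneg hM hp1, mul_nonneg hM hx1, mul_nonneg hy hw]

theorem gU1 (M o p x y w : ℝ) (hM : 0 ≤ M) (ho : 0 ≤ o) (ho1 : 0 ≤ M - o)
    (hp : 0 ≤ p) (hp1 : 0 ≤ M - p) (hx : 0 ≤ x)
    (hx1 : 0 ≤ M - x) (hy : 0 ≤ y) (hy1 : 0 ≤ M - y)
    (hU0o : 0 ≤ (1903/2500) * o + (597/2500) * M - p) (hLAp : 0 ≤ x - ((4513/10000) * p - (127/1250) * M)) (hLBp : 0 ≤ x - ((8651/10000) * p - (154/625) * M))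
    (hLCp : 0 ≤ x - ((3081/2500) * p - (4163/10000) * M)) (hLDp : 0 ≤ x - ((8051/5000) * p - (1603/2500) * M)) (hEp : 0 ≤ x - ((28811/10000) * p - (12991/10000) * o - (291/500) * M))
    (hU0p : 0 ≤ (1903/2500) * p + (597/2500) * M - x) (hU1p : 0 ≤ (1121/1250) * p - (843/5000) * o + (1359/5000) * M - x) (hLAx : 0 ≤ y - ((4513/10000) * x - (127/1250) * M))
    (hLBx : 0 ≤ y - ((8651/10000) * x - (154/625) * M)) (hLCx : 0 ≤ y - ((3081/2500) * x - (4163/10000) * M)) (hLDx : 0 ≤ y - ((8051/5000) * x - (1603/2500) * M))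
    (hEx : 0 ≤ y - ((28811/10000) * x - (12991/10000) * p - (291/500) * M)) (hU0x : 0 ≤ (1903/2500) * x + (597/2500) * M - y) (hU1x : 0 ≤ (1121/1250) * x - (843/5000) * p + (1359/5000) * M - y)
    (hw : 0 ≤ w - ((28811/10000) * y - (12991/10000) * x - (291/500) * M))
    (hL : y = (1121/1250) * x - (843/5000) * p + (1359/5000) * M) :
    0 ≤ y * w - x^2 := by
  subst hL
  linarith only [mul_nonneg ho1 hx, mul_nonneg ho1 hLAp, mul_nonneg hx hEp, mul_nonneg hLAp hEp, mul_nonneg hLBp hU0x, mul_nonneg hLCp hU0x, mul_nonneg hM hp1, mul_nonneg hM hx1, mul_nonneg hy hw]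

end Pool.Agent.H219.Dz
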