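import Pool.Agent.H219.Dz.Face
import Pool.Agent.H219.Dy.Barrier

/-! The three-variable region is invariant with a decreasing size `M(t)`. -/

set_option maxHeartbeats 4000000

namespace Pool.Agent.H219.Dz

open Set Filter Topology Pool.Agent.H219.Dy

theorem trunc_tilt3 (R : ℝ) (hR : 317/100 ≤ R) (hR1 : R ≤ 366/100) (N : ℕ) (κ : ℕ → ℝ)
    (hκ : ∀ n, 0 < κ n) (hκR : ∀ n, κ (n+1) = R * κ n)
    (ε : ℕ → ℝ) (hε0 : ∀ n, 0 < ε n) (hε1 : ∀ n, ε n ≤ 1/100) (hεR : ∀ n, ε n = 317/100 * ε (n+1))
    (T : ℝ) (M M' : ℝ → ℝ) (hM : ∀ t ∈ Icc (0:ℝ) T, HasDerivWithinAt M (M' t) (Icc 0 T) t)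
    (hMpos : ∀ t ∈ Icc (0:ℝ) T, 0 < M t) (hM0 : ∀ t ∈ Icc (0:ℝ) T, M' t ≤ 0)
    (hM' : ∀ n, ∀ t ∈ Icc (0:ℝ) T, - M' t ≤ κ n * ε n * M t ^ 2 / 200)
    (U : ℕ → ℝ → ℝ) (hpos : ∀ n, ∀ t ∈ Icc (0:ℝ) T, 0 ≤ U n t) (hcl : ∀ n, N ≤ n → U n = U N)
    (hs : ∀ n, n ≤ 2 → ∀ t ∈ Icc (0:ℝ) T, U n t ≤ M t / 5)
    (h0 : ∀ n, n ≤ N → U n 0 ≤ M 0 / 5) (hT : 0 ≤ T)
    (hU : ∀ n, 1 ≤ n → n ≤ N → ∀ t ∈ Icc (0:ℝ) T, HasDerivWithinAt (U n)
        (κ n * ((if n = 0 then 0 else U (n-1) t)^2 - U n t * U (n+1) t)) (Icc 0 T) t) :
    ∀ n, ∀ t ∈ Icc (0:ℝ) T, U n t ≤ M t := by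
  set D : ℕ → ℝ → ℝ := fun n t => κ n * ((if n = 0 then 0 else U (n-1) t)^2 - U n t * U (n+1) t) with hD
  let φ : (Fin (N+1) ⊕ (Fin N × Fin 7)) → ℝ → ℝ := fun j t =>
    match j with
    | .inl n => if (n:ℕ) ≤ 2 then 1 else M t * (1 - ε n) - U n t
    | .inr (n, k) => if (n:ℕ) ≤ 1 then 1 else Ph k (M t) (U (n-1) t) (U n t) (U (n+1) t)
  let φ' : (Fin (N+1) ⊕ (Fin N × Fin 7)) → ℝ → ℝ := fun j t =>
    match j with
    | .inl n => if (n:ℕ) ≤ 2 then 0 else M' t * (1 - ε n) - D n t
    | .inr (n, k) => if (n:ℕ) ≤ 1 then 0 else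
        al k * D (n+1) t + be k * D n t + ga k * D (n-1) t + de k * M' t
  have key : ∀ t ∈ Icc (0:ℝ) T, ∀ j, 0 < φ j t := by
    apply barrier T φ φ'
    · -- initial
      have hM00 := hMpos 0 ⟨le_rfl, hT⟩
      have hI : (0:ℝ) ∈ Icc (0:ℝ) T := ⟨le_rfl, hT⟩
      intro j
      rcases j with n | ⟨n, k⟩
      · simp only [φ]
        split_ifs
        · norm_num
        · have h1 := h0 n (by omega)
          have h2 := hε1 n
          have h3 : M 0 * (99/100) ≤ M 0 * (1 - ε n) := mul_le_mul_of_nonneg_left (by linarith) hM00.le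
          linarith
      · simp only [φ]
        split_ifs
        · norm_num
        · exact Ph_small k (M 0) _ _ _ hM00 (hpos _ 0 hI) (hpos _ 0 hI) (hpos _ 0 hI)
            (h0 _ (by omega)) (h0 _ (by omega)) (h0 _ (by omega))
    · -- derivatives
      intro j t ht
      rcases j with n | ⟨n, k⟩
      · simp only [φ, φ']
        split_ifs
        · exact hasDerivWithinAt_const _ _ _
        · exact ((hM t ht).mul_const _).sub (hU n (by omega) (by omega) t ht)
      · simp only [φ, φ']
        split_ifs
        · exact hasDerivWithinAt_const _ _ _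
        · have h1 := hU (n+1) (by omega) (by omega) t ht
          have h2 := hU n (by omega) (by omega) t ht
          have h3 := hU (n-1) (by omega) (by omega) t ht
          unfold Ph
          exact (((h1.const_mul (al k)).add (h2.const_mul (be k))).add (h3.const_mul (ga k))).add
            ((hM t ht).const_mul (de k))
    · -- the barrier condition
      intro t ht hall j hj
      have htI : t ∈ Icc (0:ℝ) T := ⟨ht.1.le, ht.2⟩
      have hMt := hMpos t htI
      have hM't := hM0 t htI
      have F0 : ∀ n, 0 ≤ U n t := fun n => hpos n t htI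
      have F1 : ∀ n, n ≤ N → U n t ≤ M t * (1 - ε n) := by
        intro n h
        rcases le_or_gt n 2 with h0' | h0'
        · have h1 := hs n h0' t htI
          have h2 := hε1 n
          have h3 : M t * (99/100) ≤ M t * (1 - ε n) := mul_le_mul_of_nonneg_left (by linarith) hMt.le
          linarith
        · have := hall (.inl ⟨n, by omega⟩)
          simp only [φ] at this
          rw [if_neg (by omega)] at this
          linarith
      have F1' : ∀ n, U n t ≤ M t := by
        intro n
        have key : ∀ n, n ≤ N → U n t ≤ M t := by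
          intro n h
          have h1 := F1 n h
          have h2 := mul_pos hMt (hε0 n)
          linarith
        rcases le_total n N with h | h
        · exact key n h
        · rw [hcl n h]; exact key N le_rfl
      have F2a : ∀ m, m + 1 < N → ∀ k, 0 ≤ Ph k (M t) (U m t) (U (m+1) t) (U (m+2) t) := by
        intro m hm k
        rcases Nat.eq_zero_or_pos m with h0' | h0'
        · subst h0'
          exact (Ph_small k (M t) _ _ _ hMt (F0 _) (F0 _) (F0 _) (hs _ (by omega) t htI)
            (hs _ (by omega) t htI) (hs _ (by omega) t htI)).le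
        · have := hall (.inr (⟨m+1, hm⟩, k))
          simp only [φ] at this
          rw [if_neg (by omega)] at this
          exact this
      have F2 : ∀ m, m + 1 ≤ N → ∀ k, 0 ≤ Ph k (M t) (U m t) (U (m+1) t) (U (m+2) t) := by
        intro m hm k
        rcases hm.lt_or_eq with h | h
        · exact F2a m h k
        · rcases Nat.eq_zero_or_pos m with h0' | h0'
          · subst h0'
            exact (Ph_small k (M t) _ _ _ hMt (F0 _) (F0 _) (F0 _) (hs _ (by omega) t htI)
              (hs _ (by omega) t htI) (hs _ (by omega) t htI)).le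
          · obtain ⟨l, rfl⟩ : ∃ l, m = l + 1 := ⟨m - 1, by omega⟩
            have h5 := F2a l (by omega) 5
            rw [Ph5] at h5
            have e : U (l+1+2) = U (l+1+1) := by
              rw [hcl (l+1+2) (by omega), hcl (l+1+1) (by omega)]
            rw [e]
            exact Ph_close k (M t) (U (l+1) t) (U (l+1+1) t) (F0 _) (F1' _) (F0 _) (F1' _) (by linarith)
      rcases j with n | ⟨n, k⟩
      · -- top : never reached
        simp only [φ] at hj
        by_cases hn0 : (n:ℕ) ≤ 2
        · rw [if_pos hn0] at hj; norm_num at hj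
        · exfalso
          rw [if_neg hn0] at hj
          obtain ⟨m, hm⟩ : ∃ m, (n:ℕ) = m + 1 := ⟨n - 1, by omega⟩
          have hmN : m + 1 ≤ N := by omega
          rw [hm] at hj
          have h1 := F1 m (by omega)
          rw [hεR m] at h1
          have h4 := F2 m hmN 4
          rw [Ph4] at h4
          have h5 := F1' (m+2)
          have h6 := mul_pos hMt (hε0 (m+1))
          have h7 : U (m+1) t = M t * (1 - ε (m+1)) := by linarith
          rw [h7] at h4
          linarith
      · -- the linear constraints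
        simp only [φ] at hj
        by_cases hn0 : (n:ℕ) ≤ 1
        · rw [if_pos hn0] at hj; norm_num at hj
        · rw [if_neg hn0] at hj
          simp only [φ']
          rw [if_neg hn0]
          obtain ⟨m, hm⟩ : ∃ m, (n:ℕ) = m + 2 := ⟨n - 2, by omega⟩
          have hmN : m + 3 ≤ N := by omega
          rw [hm] at hj ⊢
          rw [show m + 2 - 1 = m + 1 by omega] at hj ⊢
          have hz : 0 ≤ 7612/10000 * U m t + 2388/10000 * M t - U (m+1) t := by
            rcases Nat.eq_zero_or_pos m with h0' | h0'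
            · subst h0'
              have q1 := hs (0+1) (by omega) t htI
              have q2 := F0 0
              linarith
            · obtain ⟨l, rfl⟩ : ∃ l, m = l + 1 := ⟨m - 1, by omega⟩
              have h5 := F2 l (by omega) 5
              rw [Ph5] at h5
              linarith
          have hf := face R hR hR1 k (M t) (U m t) (U (m+1) t) (U (m+2) t) (U (m+2+1) t) (U (m+2+2) t)
            hMt.le (F0 _) (F1' _) (F0 _) (F1' _) (F0 _) (F1' _) (F0 _) (F1' _) hz
            (F2 m (by omega)) (F2 (m+1) (by omega)) (F2 (m+2) (by omega)) hj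
          have hR0 : 0 < R := by linarith
          have e3 : D (m+2+1) t = κ (m+2) * (R * (U (m+2) t ^ 2 - U (m+2+1) t * U (m+2+2) t)) := by
            simp only [hD]
            rw [if_neg (by omega), hκR (m+2), Nat.add_sub_cancel]
            ring
          have e2 : D (m+2) t = κ (m+2) * (U (m+1) t ^ 2 - U (m+2) t * U (m+2+1) t) := by
            simp only [hD]
            rw [if_neg (by omega), show m + 2 - 1 = m + 1 by omega]
          have e1 : D (m+1) t = κ (m+2) * (1 / R * (U m t ^ 2 - U (m+1) t * U (m+2) t)) := by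
            simp only [hD]
            rw [if_neg (by omega), hκR (m+1), Nat.add_sub_cancel]
            field_simp
          rw [e3, e2, e1]
          have g1 := F1 (m+1) (by omega)
          have g2 := F1 (m+2) (by omega)
          have g3 : M t * (ε (m+1) + ε (m+2)) ≤ 2 * M t - U (m+1) t - U (m+2) t := by linarith
          have g4 : M t * (M t * (ε (m+1) + ε (m+2))) ≤ M t * (2 * M t - U (m+1) t - U (m+2) t) :=
            mul_le_mul_of_nonneg_left g3 hMt.le
          have g5 := mul_le_mul_of_nonneg_left hf (hκ (m+2)).le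
          have g6 : 0 < κ (m+2) * (M t * (M t * ε (m+1))) :=
            mul_pos (hκ _) (mul_pos hMt (mul_pos hMt (hε0 _)))
          have g7 := mul_le_mul_of_nonneg_left g4 (hκ (m+2)).le
          have g8 := hM' (m+2) t htI
          have g9 : de k * (- M' t) ≤ 1 * (- M' t) :=
            mul_le_mul_of_nonneg_right (de_le k) (by linarith)
          have g10 : κ (m+2) * ε (m+2) * M t ^ 2 / 200
            = 1/200 * (κ (m+2) * (M t * (M t * ε (m+2)))) := by ring
          rw [g10] at g8
          have g11 : κ (m+2) * (M t * (M t * (ε (m+1) + ε (m+2))))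
            = κ (m+2) * (M t * (M t * ε (m+1))) + κ (m+2) * (M t * (M t * ε (m+2))) := by ring
          rw [g11] at g7
          have g12 : κ (m+2) * (1/200 * (M t * (2 * M t - U (m+1) t - U (m+2) t)))
            = 1/200 * (κ (m+2) * (M t * (2 * M t - U (m+1) t - U (m+2) t))) := by ring
          rw [g12] at g5
          have g13 : κ (m+2) * (al k * (R * (U (m+2) t ^ 2 - U (m+2+1) t * U (m+2+2) t))
              + be k * (U (m+1) t ^ 2 - U (m+2) t * U (m+2+1) t)
              + ga k * (1 / R * (U m t ^ 2 - U (m+1) t * U (m+2) t)))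
            = al k * (κ (m+2) * (R * (U (m+2) t ^ 2 - U (m+2+1) t * U (m+2+2) t)))
              + be k * (κ (m+2) * (U (m+1) t ^ 2 - U (m+2) t * U (m+2+1) t))
              + ga k * (κ (m+2) * (1 / R * (U m t ^ 2 - U (m+1) t * U (m+2) t))) := by ring
          rw [g13] at g5
          linarith
  intro n t ht
  have hfin : ∀ n, n ≤ N → U n t ≤ M t := by
    intro n hn
    have hMt := hMpos t ht
    rcases le_or_gt n 2 with h0' | h0'
    · have := hs n h0' t ht
      linarith
    · have := key t ht (.inl ⟨n, by omega⟩)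
      simp only [φ] at this
      rw [if_neg (by omega)] at this
      have h2 := mul_pos hMt (hε0 n)
      linarith
  rcases le_total n N with h | h
  · exact hfin n h
  · rw [hcl n h]; exact hfin N le_rfl

end Pool.Agent.H219.Dz
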